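import Pool.Agent.H29.PB.UnqC
import Pool.Agent.H18.PB.Skel2

/-!
# One germ per point

In a class with spread fans, two polynomial labels of the same radius have the same germ at the
points, up to the smaller of the two precisions, outside an exponentially small event.
-/

set_option autoImplicit false

namespace Pool.PB

open Finset Real MvPolynomial
open Pool.Agent.H49.Ent Pool.Agent.H32.Dense Pool.STK Pool.KA Pool.KSAT Pool.K2S Pool.KS3
open Pool.KAL Pool.FLF Pool.STPA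

variable {m J : ℕ}

/-- **One germ per point.** -/
theorem uniq {m : ℕ} {S : FCl m} (hS : SPS S (m - 2)) (K : ℕ) {h₁ x η : ℝ} (hh : 0 < h₁)
    (hx : 0 < x) (hη : 0 < η) :
    ∃ κ₀ : ℝ, 0 < κ₀ ∧ Clg S (fun J F A => ∀ i₁ : Fin m, Ch F i₁ ⌊h₁ * J⌋₊ A →
      ∀ E : F.Ω → Prop, Sub E A → Real.exp (-(κ₀ * J)) * Pe F.p A ≤ Pe F.p E →
      ∀ (r r' a w w' P P' : ℕ)
        (G G' : (Fin m → ℤ) × (ℕ × F.ζ) → MvPolynomial (Fin m) ℝ)
        (H H' : ((Fin m → ℝ) × (Fin m → ℝ)) × F.ζ × ℕ → MvPolynomial (Fin m) ℝ),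
        r ≤ J → r' ≤ J → w ≤ a → w' ≤ a → (a : ℝ) + x * J ≤ J →
        LabD F i₁ r K a w P G H E → LabD F i₁ r' K a w' P' G' H' E →
        ∃ ω, E ω ∧ ∀ R : ℝ, 1 ≤ R → ∀ b : Fin m → ℝ, (∀ j, |b j - bp F i₁ ω j| ≤ R / 2 ^ a) →
          |eval b (G (ptr F r ω)) - eval b (G' (ptr F r' ω))| ≤
            R ^ K * (2 : ℝ) ^ (η * J) / 2 ^ (min P P')) := by
  classical
  obtain ⟨C, c₀, hC, hc₀, hfam⟩ := uniq_fam m K
  have hl2 : 0 < Real.log 2 := Real.log_pos (by norm_num)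
  have hm0 : (0 : ℝ) ≤ m := Nat.cast_nonneg m
  obtain ⟨x', hx'⟩ : ∃ x', x' = min x 1 := ⟨_, rfl⟩
  have hx'0 : 0 < x' := by rw [hx']; exact lt_min hx one_pos
  have hx'x : x' ≤ x := by rw [hx']; exact min_le_left _ _
  have hx'1 : x' ≤ 1 := by rw [hx']; exact min_le_right _ _
  obtain ⟨lam, hlam⟩ : ∃ lam, lam = min x' η * Real.log 2 := ⟨_, rfl⟩
  have hlam0 : 0 < lam := by rw [hlam]; exact mul_pos (lt_min hx'0 hη) hl2
  have hlamx : lam ≤ x' * Real.log 2 := by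
    rw [hlam]; exact mul_le_mul_of_nonneg_right (min_le_left _ _) hl2.le
  have hlamη : lam ≤ η * Real.log 2 := by
    rw [hlam]; exact mul_le_mul_of_nonneg_right (min_le_right _ _) hl2.le
  obtain ⟨θ, hθ⟩ : ∃ θ, θ = lam / (8 * C ^ 2) := ⟨_, rfl⟩
  have hθ0 : 0 < θ := by rw [hθ]; positivity
  have hθC : 4 * C ^ 2 * θ = lam / 2 := by
    rw [hθ]
    field_simp
    ring
  obtain ⟨kc, hkc⟩ : ∃ kc : ℕ, kc = ⌈1 / θ⌉₊ + 1 := ⟨_, rfl⟩
  have hkc1 : 1 ≤ kc := by omega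
  have hkcθ : 1 / (kc : ℝ) ≤ θ := by
    have h1 : 1 / θ ≤ kc := by
      rw [hkc]
      push_cast
      linarith only [Nat.le_ceil (1 / θ)]
    rw [div_le_iff₀ hθ0] at h1
    rw [div_le_iff₀ (by exact_mod_cast hkc1)]
    linarith only [h1]
  obtain ⟨g, hg⟩ : ∃ g, g = min (h₁ / 2) (θ / (m + 1)) := ⟨_, rfl⟩
  have hg0 : 0 < g := by rw [hg]; exact lt_min (by linarith only [hh]) (by positivity)
  have hgh : g ≤ h₁ / 2 := by rw [hg]; exact min_le_left _ _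
  have hgθ : m * g ≤ θ := by
    have h1 : g ≤ θ / (m + 1) := by rw [hg]; exact min_le_right _ _
    rw [le_div_iff₀ (by linarith only)] at h1
    nlinarith only [hg0, h1]
  obtain ⟨ψ, hψ, hcl⟩ := hS g hg0
  obtain ⟨κ₀, hκ₀⟩ : ∃ κ₀, κ₀ = min (ψ / 8) (θ / 2) := ⟨_, rfl⟩
  have hκ₀0 : 0 < κ₀ := by rw [hκ₀]; exact lt_min (by linarith only [hψ]) (by linarith only [hθ0])
  have hκ₀ψ : κ₀ ≤ ψ / 8 := by rw [hκ₀]; exact min_le_left _ _
  have hκ₀θ : κ₀ ≤ θ / 2 := by rw [hκ₀]; exact min_le_right _ _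
  obtain ⟨τ, hτ⟩ : ∃ τ, τ = θ / 12 := ⟨_, rfl⟩
  have hτ0 : 0 < τ := by rw [hτ]; linarith only [hκ₀0, hκ₀θ]
  obtain ⟨γ₀, hγ₀⟩ : ∃ γ₀ : ℕ, (m.factorial : ℝ) * 2 ^ m * (4 * (m + 1)) ^ m ≤ 2 ^ γ₀ := by
    obtain ⟨n, hn⟩ := pow_unbounded_of_one_lt ((m.factorial : ℝ) * 2 ^ m * (4 * (m + 1)) ^ m)
      (one_lt_two : (1 : ℝ) < 2)
    exact ⟨n, hn.le⟩
  obtain ⟨q₀, hq₀⟩ : ∃ q₀, q₀ = |Real.log (2 / c₀)| := ⟨_, rfl⟩
  obtain ⟨q₁, hq₁⟩ : ∃ q₁, q₁ = |Real.log c₀| := ⟨_, rfl⟩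
  have hq₀0 : 0 ≤ q₀ := by rw [hq₀]; exact abs_nonneg _
  have hq₁0 : 0 ≤ q₁ := by rw [hq₁]; exact abs_nonneg _
  obtain ⟨q₂, hq₂⟩ : ∃ q₂ : ℝ, q₂ = q₀ + γ₀ + kc + 1 + 4 / ψ := ⟨_, rfl⟩
  have hq₂0 : 0 ≤ q₂ := by rw [hq₂]; positivity
  obtain ⟨q₃, hq₃⟩ : ∃ q₃ : ℝ, q₃ = Real.log C + (K + 1) * Real.log 2 := ⟨_, rfl⟩
  have hlC : 0 ≤ Real.log C := Real.log_nonneg hC
  have hq₃0 : 0 ≤ q₃ := by rw [hq₃]; positivity
  obtain ⟨J₁, hJ₁⟩ := exists_nat_ge (q₁ / κ₀ + q₂ / θ + 2 * q₃ / lam + 2 / h₁ +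
    4 * Real.log 2 / ψ + 1)
  refine ⟨κ₀, hκ₀0, Clg.mono (J₂ := J₁) (hcl.and (Clg.of hτ0 0
    (Φ := fun J F A => S.St τ F A) fun _ _ _ _ h => h)) ?_⟩
  rintro J hJ F A ⟨hSp, hSt⟩ i₁ hCh E hEA hEP r r' a w w' P P' G G' H H' hr hr' hw hw' hax hlab
    hlab'
  have hp := F.isLaw
  -- large `J`
  have hJr : q₁ / κ₀ + q₂ / θ + 2 * q₃ / lam + 2 / h₁ + 4 * Real.log 2 / ψ + 1 ≤ J :=
    hJ₁.trans (by exact_mod_cast hJ)
  have t1 : 0 ≤ q₁ / κ₀ := by positivity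
  have t2 : 0 ≤ q₂ / θ := by positivity
  have t3 : 0 ≤ 2 * q₃ / lam := by positivity
  have t4 : 0 ≤ 2 / h₁ := by positivity
  have t5 : 0 ≤ 4 * Real.log 2 / ψ := by positivity
  have j1 : q₁ ≤ κ₀ * J := by
    have : q₁ / κ₀ ≤ J := by linarith only [hJr, t2, t3, t4, t5]
    rw [div_le_iff₀ hκ₀0] at this
    linarith only [this]
  have j2 : q₂ ≤ θ * J := by
    have : q₂ / θ ≤ J := by linarith only [hJr, t1, t3, t4, t5]
    rw [div_le_iff₀ hθ0] at this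
    linarith only [this]
  have j3 : q₃ ≤ lam * J / 2 := by
    have : 2 * q₃ / lam ≤ J := by linarith only [hJr, t1, t2, t4, t5]
    rw [div_le_iff₀ hlam0] at this
    linarith only [this]
  have j4 : 2 ≤ h₁ * J := by
    have : 2 / h₁ ≤ J := by linarith only [hJr, t1, t2, t3, t5]
    rw [div_le_iff₀ hh] at this
    linarith only [this]
  have j5 : 2 * Real.log 2 ≤ ψ / 2 * J := by
    have : 4 * Real.log 2 / ψ ≤ J := by linarith only [hJr, t1, t2, t3, t4]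
    rw [div_le_iff₀ hψ] at this
    linarith only [this]
  have hJ0 : (0 : ℝ) < J := by linarith only [hJr, t1, t2, t3, t4, t5]
  have hJ0' : (0 : ℝ) ≤ J := hJ0.le
  -- the radius
  obtain ⟨L, hL⟩ : ∃ L, L = ⌊x' * (J : ℝ)⌋₊ := ⟨_, rfl⟩
  have hx'J : 0 ≤ x' * (J : ℝ) := by positivity
  have hLle : (L : ℝ) ≤ x' * J := by rw [hL]; exact Nat.floor_le hx'J
  have hLge : x' * J - 1 ≤ L := by
    rw [hL]
    have := Nat.lt_floor_add_one (x' * (J : ℝ))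
    linarith only [this]
  have hLJ : (L : ℝ) ≤ J := hLle.trans (by nlinarith only [hax, hx'x])
  have haL : a + L ≤ J := by
    have h1 : x' * (J : ℝ) ≤ x * J := mul_le_mul_of_nonneg_right hx'x hJ0'
    have : ((a + L : ℕ) : ℝ) ≤ J := by
      push_cast
      linarith only [hax, hLle, h1]
    exact_mod_cast this
  have haJ : a ≤ J := by omega
  -- normal form of the labels
  obtain ⟨G₁, H₁, hl₁, hG₁⟩ := hlab.norm hr hw haJ (le_refl K) (min_le_left P P')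
  obtain ⟨G₂, H₂, hl₂, hG₂⟩ := hlab'.norm hr' hw' haJ (le_refl K) (min_le_right P P')
  -- the slabs
  obtain ⟨n, hn⟩ : ∃ n, n = ⌊g * (J : ℝ)⌋₊ := ⟨_, rfl⟩
  have hnle : (n : ℝ) ≤ g * J := by rw [hn]; exact Nat.floor_le (by positivity)
  obtain ⟨δ, hδ⟩ : ∃ δ : ℝ, δ = 1 / (4 * (m + 1)) * (1 / 2 ^ n) := ⟨_, rfl⟩
  have h2n : (0 : ℝ) < 2 ^ n := by positivity
  have h2n1 : (1 : ℝ) / 2 ^ n ≤ 1 := by
    rw [div_le_one h2n]
    exact one_le_pow₀ (by norm_num)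
  have hm4 : 1 / (4 * ((m : ℝ) + 1)) ≤ 1 / 4 := by
    refine one_div_le_one_div_of_le (by norm_num) ?_
    linarith only
  have hδ0 : 0 < δ := by rw [hδ]; positivity
  have hδ2 : δ < 1 / 2 := by
    have : δ ≤ 1 / 4 * 1 := by
      rw [hδ]
      exact mul_le_mul hm4 h2n1 (by positivity) (by norm_num)
    linarith only [hδ0, this]
  have hnh : n + 1 ≤ ⌊h₁ * (J : ℝ)⌋₊ := by
    refine Nat.le_floor ?_
    push_cast
    have h1 : g * J ≤ h₁ / 2 * J := mul_le_mul_of_nonneg_right hgh hJ0'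
    linarith only [j4, hnle, h1]
  have hδg : 1 / 2 ^ ⌊h₁ * (J : ℝ)⌋₊ + 2 * m * δ ≤ 1 / 2 ^ n := by
    have h1 : (1 : ℝ) / 2 ^ ⌊h₁ * (J : ℝ)⌋₊ ≤ 1 / 2 ^ (n + 1) := inv_mono hnh
    have h2 : (1 : ℝ) / 2 ^ (n + 1) = 1 / 2 ^ n / 2 := by rw [pow_succ]; field_simp
    have h3 : 2 * m * δ ≤ 1 / 2 ^ n / 2 := by
      rw [hδ]
      have h4 : 2 * (m : ℝ) * (1 / (4 * (m + 1)) * (1 / 2 ^ n)) =
          (m / (m + 1)) * (1 / 2 ^ n / 2) := by
        field_simp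
        ring
      rw [h4]
      have h5 : (m : ℝ) / (m + 1) ≤ 1 := by
        rw [div_le_one (by linarith only [hδ0, hδ2])]
        linarith only [hδ0, hδ2]
      calc (m : ℝ) / (m + 1) * (1 / 2 ^ n / 2) ≤ 1 * (1 / 2 ^ n / 2) :=
            mul_le_mul_of_nonneg_right h5 (by positivity)
        _ = _ := one_mul _
    linarith only [h1, h2, h3]
  have hγ : (m.factorial : ℝ) * 2 ^ m ≤ δ ^ m * 2 ^ (m * n + γ₀) := by
    have h1 : δ ^ m * 2 ^ (m * n + γ₀) = 2 ^ γ₀ / (4 * ((m : ℝ) + 1)) ^ m := by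
      rw [hδ, mul_pow, div_pow, div_pow, one_pow, pow_add, ← pow_mul, mul_comm n m]
      have h3 : (0 : ℝ) < 2 ^ (m * n) := by positivity
      have h4 : (0 : ℝ) < (4 * ((m : ℝ) + 1)) ^ m := by positivity
      field_simp
    rw [h1, le_div_iff₀ (by positivity)]
    exact hγ₀
  -- the fans
  have hfan : ∀ B : F.Ω → Prop, Sub B E → c₀ * Pe F.p E ≤ Pe F.p B →
      Stb F.p (ψ / 2 * J) B (Fn (fun ω i => lB (chI i₁) (slam F a ω) (some i)) (Fam.pt F)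
        (Slb m δ)) ∧
      ¬ Fn (fun ω i => lB (chI i₁) (slam F a ω) (some i)) (Fam.pt F) (Slb m δ) B := by
    intro B hBE hBP
    have hBA : Sub B A := hBE.trans hEA
    have h1 : Real.exp (-(2 * κ₀ * J)) * Pe F.p A ≤ Pe F.p B := by
      refine le_trans ?_ hBP
      refine le_trans ?_ (mul_le_mul_of_nonneg_left hEP hc₀.le)
      rw [← mul_assoc]
      refine mul_le_mul_of_nonneg_right ?_ (Pe_nonneg hp A)
      have h2 : Real.exp (-(κ₀ * J)) ≤ c₀ := by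
        rw [← Real.exp_log hc₀]
        refine Real.exp_le_exp.2 ?_
        have := neg_abs_le (Real.log c₀)
        rw [← hq₁] at this
        linarith only [j1, this]
      calc Real.exp (-(2 * κ₀ * J)) = Real.exp (-(κ₀ * J)) * Real.exp (-(κ₀ * J)) := by
            rw [← Real.exp_add]; congr 1; ring
        _ ≤ c₀ * Real.exp (-(κ₀ * J)) := mul_le_mul_of_nonneg_right h2 (Real.exp_pos _).le
    have h3 : Sp F (m - 2) (ψ / 2) g B := by
      have h4 := hSp.sub (δ := 2 * κ₀) hBA h1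
      exact h4.mono (by linarith only [hψ, hκ₀ψ]) le_rfl
    exact slb_of_sp (Ch.hered F i₁ _ _ _ hBA hCh) h3 hδ2 (by rw [← hn]; exact hδg)
      (by linarith only [hψ]) a
  -- the size of the event
  obtain ⟨hT, hPA⟩ := hSt
  obtain ⟨s, hs⟩ : ∃ s : ℝ, s = (κ₀ + τ) * J + q₀ := ⟨_, rfl⟩
  have hsP : Real.exp (-s) ≤ c₀ / 2 * Pe F.p E := by
    have h1 : Real.exp (-((κ₀ + τ) * J)) ≤ Pe F.p E := by
      refine le_trans ?_ hEP
      calc Real.exp (-((κ₀ + τ) * J)) = Real.exp (-(κ₀ * J)) * Real.exp (-(τ * J)) := by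
            rw [← Real.exp_add]; congr 1; ring
        _ ≤ _ := mul_le_mul_of_nonneg_left hPA (Real.exp_pos _).le
    have h2 : Real.exp (-q₀) ≤ c₀ / 2 := by
      have h3 : c₀ / 2 = Real.exp (-Real.log (2 / c₀)) := by
        rw [Real.exp_neg, Real.exp_log (by positivity), inv_div]
      rw [h3]
      refine Real.exp_le_exp.2 ?_
      have := le_abs_self (Real.log (2 / c₀))
      rw [← hq₀] at this
      linarith only [this]
    calc Real.exp (-s) = Real.exp (-q₀) * Real.exp (-((κ₀ + τ) * J)) := by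
          rw [← Real.exp_add, hs]; congr 1; ring
      _ ≤ c₀ / 2 * Pe F.p E := mul_le_mul h2 h1 (Real.exp_pos _).le (by positivity)
  have hs0 : 0 ≤ s := by rw [hs]; positivity
  -- the defect
  obtain ⟨Δ, hΔ⟩ : ∃ Δ : ℝ, Δ = C * (4 * (τ * J) + τ * J + s + L / kc + ((m * n + γ₀ : ℕ) : ℝ) +
    kc + 1 + Real.exp (-(ψ / 2 * J / 2)) * L) := ⟨_, rfl⟩
  have hΔle : C * Δ ≤ lam * J / 2 := by
    have e1 : 4 * (τ * J) + τ * J + s ≤ θ * J + q₀ := by
      rw [hs, hτ]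
      have : κ₀ * J ≤ θ / 2 * J := mul_le_mul_of_nonneg_right hκ₀θ hJ0'
      linarith only [this]
    have e2 : (L : ℝ) / kc ≤ θ * J := by
      calc (L : ℝ) / kc = L * (1 / kc) := by ring
        _ ≤ J * θ := mul_le_mul hLJ hkcθ (by positivity) hJ0'
        _ = _ := mul_comm _ _
    have e3 : ((m * n + γ₀ : ℕ) : ℝ) ≤ θ * J + γ₀ := by
      push_cast
      have h1 : (m : ℝ) * n ≤ m * (g * J) := mul_le_mul_of_nonneg_left hnle hm0
      have h2 : (m : ℝ) * (g * J) ≤ θ * J := by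
        rw [← mul_assoc]
        exact mul_le_mul_of_nonneg_right hgθ hJ0'
      linarith only [h1, h2]
    have e4 : Real.exp (-(ψ / 2 * J / 2)) * L ≤ 4 / ψ := by
      obtain ⟨y, hy⟩ : ∃ y, y = ψ / 2 * J / 2 := ⟨_, rfl⟩
      have hy0 : 0 < y := by rw [hy]; positivity
      have h1 : y ≤ Real.exp y := by linarith only [hδ0, hδ2, Real.add_one_le_exp y]
      have h2 : Real.exp (-y) * y ≤ 1 := by
        rw [Real.exp_neg, inv_mul_le_iff₀ (Real.exp_pos y), mul_one]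
        exact h1
      rw [← hy]
      calc Real.exp (-y) * L ≤ Real.exp (-y) * J :=
            mul_le_mul_of_nonneg_left hLJ (Real.exp_pos _).le
        _ = Real.exp (-y) * y * (4 / ψ) := by
            rw [hy]
            field_simp
            ring
        _ ≤ 1 * (4 / ψ) := mul_le_mul_of_nonneg_right h2 (by positivity)
        _ = _ := one_mul _
    have e5 : 4 * (τ * J) + τ * J + s + L / kc + ((m * n + γ₀ : ℕ) : ℝ) +
        kc + 1 + Real.exp (-(ψ / 2 * J / 2)) * L ≤ 4 * (θ * J) := by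
      have h1 : q₀ + γ₀ + kc + 1 + 4 / ψ ≤ θ * J := by rw [← hq₂]; exact j2
      linarith only [hq₂, j2, e1, e2, e3, e4]
    have hC0 : 0 ≤ C := by linarith only [hC, hδ0, hδ2]
    rw [hΔ]
    calc C * (C * (4 * (τ * J) + τ * J + s + L / kc + ((m * n + γ₀ : ℕ) : ℝ) +
        kc + 1 + Real.exp (-(ψ / 2 * J / 2)) * L)) ≤ C * (C * (4 * (θ * J))) :=
          mul_le_mul_of_nonneg_left (mul_le_mul_of_nonneg_left e5 hC0) hC0
      _ = (4 * C ^ 2 * θ) * J := by ring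
      _ = lam * J / 2 := by rw [hθC]; ring
  exact by
   have hCpos : 0 < C := by linarith only [hC, hδ0, hδ2]
   have hCexp : C * Real.exp (C * Δ) ≤ Real.exp (Real.log C + lam * J / 2) := by
     rw [Real.exp_add, Real.exp_log hCpos]
     exact mul_le_mul_of_nonneg_left (Real.exp_le_exp.2 hΔle) hCpos.le
   have hpow2 : ∀ k : ℕ, (2 : ℝ) ^ k = Real.exp (k * Real.log 2) := by
     intro k
     rw [Real.exp_nat_mul, Real.exp_log (by norm_num)]
   have hsz : C * Real.exp (C * Δ) ≤ 2 ^ L := by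
     refine hCexp.trans ?_
     rw [hpow2]
     refine Real.exp_le_exp.2 ?_
     have h1 : (x' * J - 1) * Real.log 2 ≤ L * Real.log 2 := mul_le_mul_of_nonneg_right hLge hl2.le
     have h2 : lam * J ≤ x' * Real.log 2 * J := mul_le_mul_of_nonneg_right hlamx hJ0'
     have h3 : Real.log C + Real.log 2 ≤ q₃ := by
       rw [hq₃]
       have : 0 ≤ (K : ℝ) * Real.log 2 := by positivity
       linarith only [this]
     linarith only [j3, h1, h2, h3]
   obtain ⟨ω, hω, hfin⟩ := hfam J F i₁ a L (min P P') kc (m * n + γ₀) δ (ψ / 2 * J) (τ * J) (τ * J) s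
     E G₁ G₂ H₁ H₂ haL (S.tr hT) (S.tm hT) (S.rb hT) (by positivity) hfan j5 hsP hδ0 hγ hkc1 hl₁ hl₂
     Δ hΔ hsz
   refine ⟨ω, hω, fun R hR b hb => ?_⟩
   have h1 := hfin R hR b hb
   rw [hG₁, hG₂] at h1
   refine h1.trans ?_
   refine div_le_div_of_nonneg_right ?_ (by positivity)
   refine mul_le_mul_of_nonneg_left ?_ (by positivity)
   have h2 : (2 : ℝ) ^ (η * (J : ℝ)) = Real.exp (η * J * Real.log 2) := by
     rw [Real.rpow_def_of_pos (by norm_num)]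
     congr 1
     ring
   rw [h2]
   calc (2 : ℝ) ^ K * (C * Real.exp (C * Δ)) ≤ Real.exp (K * Real.log 2) *
         Real.exp (Real.log C + lam * J / 2) := by
         rw [hpow2]
         exact mul_le_mul_of_nonneg_left hCexp (Real.exp_pos _).le
     _ = Real.exp (K * Real.log 2 + (Real.log C + lam * J / 2)) := (Real.exp_add _ _).symm
     _ ≤ _ := by
         refine Real.exp_le_exp.2 ?_
         have h3 : lam * J ≤ η * Real.log 2 * J := mul_le_mul_of_nonneg_right hlamη hJ0'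
         have h4 : Real.log C + K * Real.log 2 ≤ q₃ := by
           rw [hq₃]
           linarith only [hl2]
         linarith only [hl2, hq₃, j3, h3]

/-- The germs of two labels agree at the sample, up to `2 ^ (η J - min P P')`. -/
def Germ (F : Fam m J) (i₁ : Fin m) (r r' K a P P' : ℕ) (η : ℝ)
    (G G' : (Fin m → ℤ) × (ℕ × F.ζ) → MvPolynomial (Fin m) ℝ) (ω : F.Ω) : Prop :=
  ∀ R : ℝ, 1 ≤ R → ∀ b : Fin m → ℝ, (∀ j, |b j - bp F i₁ ω j| ≤ R / 2 ^ a) →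
    |eval b (G (ptr F r ω)) - eval b (G' (ptr F r' ω))| ≤
      R ^ K * (2 : ℝ) ^ (η * J) / 2 ^ (min P P')

/-- **One germ per point**, in terms of the exceptional event: two labels which are valid on an
event `A'` inside the stable event `A` have the same germs at the points of `A'`, outside an event
of proportion `exp (-κ₀ J)` in `A`. -/
theorem uniq_event {m : ℕ} {S : FCl m} (hS : SPS S (m - 2)) (K : ℕ) {h₁ x η : ℝ} (hh : 0 < h₁)
    (hx : 0 < x) (hη : 0 < η) :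
    ∃ κ₀ : ℝ, 0 < κ₀ ∧ Clg S (fun J F A => ∀ i₁ : Fin m, Ch F i₁ ⌊h₁ * J⌋₊ A →
      ∀ A' : F.Ω → Prop, Sub A' A → ∀ (r r' a w w' P P' : ℕ)
        (G G' : (Fin m → ℤ) × (ℕ × F.ζ) → MvPolynomial (Fin m) ℝ)
        (H H' : ((Fin m → ℝ) × (Fin m → ℝ)) × F.ζ × ℕ → MvPolynomial (Fin m) ℝ),
        r ≤ J → r' ≤ J → w ≤ a → w' ≤ a → (a : ℝ) + x * J ≤ J →
        LabD F i₁ r K a w P G H A' → LabD F i₁ r' K a w' P' G' H' A' →
        Pe F.p (fun ω => A' ω ∧ ¬ Germ F i₁ r r' K a P P' η G G' ω) <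
          Real.exp (-(κ₀ * J)) * Pe F.p A) := by
  obtain ⟨κ₀, hκ₀, h⟩ := uniq hS K hh hx hη
  refine ⟨κ₀, hκ₀, Clg.mono (J₂ := 0) h ?_⟩
  intro J _ F A hA i₁ hCh A' hA' r r' a w w' P P' G G' H H' hr hr' hw hw' hax hl hl'
  by_contra hcon
  push Not at hcon
  have hE : Sub (fun ω => A' ω ∧ ¬ Germ F i₁ r r' K a P P' η G G' ω) A' := fun _ h => h.1
  obtain ⟨ω, hω, hg⟩ := hA i₁ hCh _ (hE.trans hA') hcon r r' a w w' P P' G G' H H' hr hr' hw
    hw' hax (hl.hered hE) (hl'.hered hE)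
  exact hω.2 hg

end Pool.PB
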