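import Pool.Agent.H29.PB.CnvC
import Pool.Agent.H39.SLO.Tms
import Pool.Agent.H76.SLP.Stmts

/-!
# Ball labels with the gradient bound on a smaller ball

The statement `CNVS` of helper76.
-/

set_option autoImplicit false

namespace Pool.PB

open Finset Real MvPolynomial
open Pool.Agent.H49.Ent Pool.Agent.H32.Dense Pool.STK Pool.KA Pool.KSAT Pool.K2S Pool.KS3
open Pool.KAL Pool.FLF Pool.STPA

variable {m J : ℕ}

/-- A hereditary property of a large part of a stable event. -/
theorem stb_part {Ω : Type} [Fintype Ω] {p : Ω → ℝ} {κ : ℝ} {A B : Ω → Prop}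
    {Q : (Ω → Prop) → Prop} (hs : Stb p κ A Q) (hB : Sub B A)
    (hP : Real.exp (-κ) * Pe p A ≤ Pe p B) (hQ : Q B) : Q A := by
  rcases hs with h | h
  · exact h
  · exact absurd hQ (h B hB hP)

/-- Separated samples of the line in the window, for most samples of an event. -/
theorem times_event {S : FCl m} {τ : ℝ} (F : Fam m J) {A : F.Ω → Prop} (hSt : S.St τ F A)
    (hτ : 0 ≤ τ) {n k a : ℕ} (hn : 1 ≤ n) (hak : a + k ≤ J) (hk : (4 * n) ^ 2 ≤ 2 ^ k)
    (hk1 : 48 * (τ * J) ≤ k * Real.log 2) (hk0 : 0 < k) :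
    Pe F.p (fun ω => A ω ∧ ¬ ∃ v : Fin n → F.Ω, (∀ i, A (v i)) ∧
      (∀ i, slam F a (v i) = slam F a ω) ∧
      ∀ i j, i ≠ j → 1 / 2 ^ (a + k) ≤ |F.t (v i) - F.t (v j)|) ≤ Pe F.p A / 4 := by
  classical
  have hp := F.isLaw
  have hl2 : 0 < Real.log 2 := Real.log_pos (by norm_num)
  obtain ⟨hT, hPA⟩ := hSt
  have hA : 0 < Pe F.p A := (Real.exp_pos _).trans_le hPA
  have hq : IsLaw (Pool.Agent.H49.Ent.cond F.p A True) := isLaw_cond hp hA
  have hTm := sub_Tm_of_reg (S.tr hT) (S.tm hT) (S.rb hT) hA hPA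
  have h1 := time_digits (Fam.sub F A hA) (w := a) (K := k) hak hTm
  have h2 : CH (Fam.sub F A hA).p (fun ω => ((Fam.sub F A hA).T1 (a + k) ω : ℤ))
      (slam (Fam.sub F A hA) a) = CH (Pool.Agent.H49.Ent.cond F.p A True) (F.T1 (a + k))
        (slam F a) := by
    have e1 : CH (Fam.sub F A hA).p (fun ω => ((Fam.sub F A hA).T1 (a + k) ω : ℤ))
        (slam (Fam.sub F A hA) a) = CH (Pool.Agent.H49.Ent.cond F.p A True)
          (fun ω => (F.T1 (a + k) ω : ℤ)) (slam F a) :=
      sub_CH (fun ω => (F.T1 (a + k) ω : ℤ)) (slam F a)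
    rw [e1]
    refine CH_congr hq.nonneg ?_ ?_ ?_ ?_
    · intro ω ω' _ _ h
      have := Prod.ext_iff.mp h
      simp only at this
      exact_mod_cast this.1
    · intro ω ω' _ _ h
      have := Prod.ext_iff.mp h
      simp only at this ⊢
      rw [this.1]
    · intro ω ω' _ _ h
      exact h
    · intro ω ω' _ _ h
      exact h
  rw [h2] at h1
  have h3 := Pool.Agent.H39.SLO.tms_fam F hq A hn hak (e := 4 * (τ * J) + τ * J + τ * J)
    (by positivity) (by linarith only [h1]) hk
  have h4 : Pe (Pool.Agent.H49.Ent.cond F.p A True) (fun ω => ¬ A ω) = 0 := by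
    rw [Pe_cond]
    have : Pe F.p (fun ω => A ω ∧ ¬ A ω) = 0 := by
      rw [Pe_eq]
      refine Finset.sum_eq_zero fun ω _ => ?_
      rw [if_neg]
      rintro ⟨h, h'⟩
      exact h' h
    rw [this, zero_div]
  rw [h4, mul_zero, zero_add] at h3
  have h5 : 2 * (4 * (τ * J) + τ * J + τ * J) / (k * Real.log 2) ≤ 1 / 4 := by
    have hk0' : (0 : ℝ) < k := by exact_mod_cast hk0
    rw [div_le_iff₀ (by positivity)]
    linarith only [hk1]
  have h6 : Pe (Pool.Agent.H49.Ent.cond F.p A True) (fun ω => ¬ ∃ v : Fin n → F.Ω,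
      (∀ i, A (v i)) ∧ (∀ i, slam F a (v i) = slam F a ω) ∧
      ∀ i j, i ≠ j → 1 / 2 ^ (a + k) ≤ |F.t (v i) - F.t (v j)|) ≤ 1 / 4 := by
    refine le_trans (Pe_mono hq ?_) (h3.trans h5)
    rintro ω hω ⟨v, hv1, hv2⟩
    exact hω ⟨v, fun i => (hv1 i).1, fun i => (hv1 i).2.2, hv2⟩
  rw [Pe_cond, div_le_iff₀ hA] at h6
  linarith only [h6]

/-- **Ball labels with the gradient bound on a smaller ball.** -/
theorem cnvs {S : FCl m} (hS : SPS S (m - 2)) : CNVS S := by
  classical
  intro h₁ X hh hX K
  obtain ⟨C, hC, hone⟩ := cnv_one m K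
  have hl2 : 0 < Real.log 2 := Real.log_pos (by norm_num)
  refine ⟨1, ?_⟩
  intro N hN i₁ ρ i p hρX hip hpρ
  have hNr : (0 : ℝ) < N := by exact_mod_cast hN
  have hm0 : (0 : ℝ) ≤ m := Nat.cast_nonneg m
  obtain ⟨n, hn⟩ : ∃ n, n = max K 1 := ⟨_, rfl⟩
  have hn1 : 1 ≤ n := by rw [hn]; exact le_max_right _ _
  have hnr : (1 : ℝ) ≤ n := by exact_mod_cast hn1
  have hρN : ρ ≤ N := by
    have : (ρ : ℝ) ≤ N := by
      have : 0 ≤ X * N := by positivity
      linarith only [hρX, this]
    exact_mod_cast this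
  obtain ⟨κ₁, hκ₁, huniq⟩ := uniq_event hS K (h₁ := h₁) (x := 1 / (2 * N)) (η := 1 / (8 * N)) hh
    (by positivity) (by positivity)
  obtain ⟨g, hg⟩ : ∃ g : ℝ, g = min (h₁ / 2) (1 / (4 * N)) := ⟨_, rfl⟩
  have hg0 : 0 < g := by rw [hg]; exact lt_min (by linarith only [hh]) (by positivity)
  have hgh : g ≤ h₁ / 2 := by rw [hg]; exact min_le_left _ _
  have hgN : g ≤ 1 / (4 * N) := by rw [hg]; exact min_le_right _ _
  obtain ⟨ψ, hψ, hcl⟩ := hS g hg0
  obtain ⟨τ, hτ⟩ : ∃ τ : ℝ, τ = Real.log 2 / (768 * n * N) := ⟨_, rfl⟩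
  have hτ0 : 0 < τ := by rw [hτ]; positivity
  obtain ⟨k₀, hk₀⟩ : ∃ k₀ : ℕ, (4 * (n + 1)) ^ 2 ≤ 2 ^ k₀ :=
    ⟨(4 * (n + 1)) ^ 2, Nat.lt_two_pow_self.le⟩
  obtain ⟨q, hq⟩ : ∃ q : ℝ, q = Real.log (96 * (m + 1)) := ⟨_, rfl⟩
  have hq0 : 0 ≤ q := by rw [hq]; exact Real.log_nonneg (by linarith only)
  have hlC : 0 ≤ Real.log C := Real.log_nonneg hC
  exact by
   obtain ⟨b₁, hb₁⟩ : ∃ b₁ : ℝ, b₁ = Real.log C + (n + 5) * Real.log 2 + q := ⟨_, rfl⟩
   have hb₁0 : 0 ≤ b₁ := by rw [hb₁]; positivity
   -- the list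
   refine Clg.step (⟨1, fun J F _ B => Bl F i₁ N K ρ (i + 1) p B,
     fun J F _ => Bl.hered F i₁ N K ρ (i + 1) p⟩ : PList m) fun κ hκ => ?_
   obtain ⟨J₁, hJ₁⟩ := exists_nat_ge (b₁ / (Real.log 2 / (2 * N)) +
     (Real.log 2 + q) / (h₁ / 2 * Real.log 2) + 3 * Real.log 2 / κ₁ + 3 * Real.log 2 / ψ +
     2 * Real.log 2 / κ + 6 * N + 32 * n * N + 16 * n * N * (k₀ + 1))
   refine Clg.mono (J₂ := J₁) ((huniq.and hcl).and (Clg.of hτ0 0
     (Φ := fun J F A => S.St τ F A) fun _ _ _ _ h => h)) ?_
   rintro J hJ F A ⟨⟨hU, hSp⟩, hSt⟩ hSb hCh hTb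
   have hp := F.isLaw
   -- large `J`
   have hJr : b₁ / (Real.log 2 / (2 * N)) +
     (Real.log 2 + q) / (h₁ / 2 * Real.log 2) + 3 * Real.log 2 / κ₁ + 3 * Real.log 2 / ψ +
     2 * Real.log 2 / κ + 6 * N + 32 * n * N + 16 * n * N * (k₀ + 1) ≤ J :=
     hJ₁.trans (by exact_mod_cast hJ)
   have t1 : 0 ≤ b₁ / (Real.log 2 / (2 * N)) := by positivity
   have t2 : 0 ≤ (Real.log 2 + q) / (h₁ / 2 * Real.log 2) := by positivity
   have t3 : 0 ≤ 3 * Real.log 2 / κ₁ := by positivity
   have t4 : 0 ≤ 3 * Real.log 2 / ψ := by positivity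
   have t5 : 0 ≤ 2 * Real.log 2 / κ := by positivity
   have t6 : (0 : ℝ) ≤ 6 * N := by positivity
   have t7 : (0 : ℝ) ≤ 32 * n * N := by positivity
   have t8 : (0 : ℝ) ≤ 16 * n * N * (k₀ + 1) := by positivity
   have j1 : b₁ ≤ Real.log 2 / (2 * N) * J := by
     have : b₁ / (Real.log 2 / (2 * N)) ≤ J := by linarith only [hNr, hJr, t2, t3, t4, t5, t7, t8]
     rw [div_le_iff₀ (by positivity)] at this
     linarith only [this]
   have j2 : Real.log 2 + q ≤ h₁ / 2 * Real.log 2 * J := by
     have : (Real.log 2 + q) / (h₁ / 2 * Real.log 2) ≤ J := by linarith only [hNr, hJr, t1, t3, t4, t5, t7, t8]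
     rw [div_le_iff₀ (by positivity)] at this
     linarith only [this]
   exact by
    have j3 : 3 * Real.log 2 ≤ κ₁ * J := by
      have : 3 * Real.log 2 / κ₁ ≤ J := by linarith only [hNr, hJr, t1, t2, t4, t5, t7, t8]
      rw [div_le_iff₀ hκ₁] at this
      linarith only [this]
    have j4 : 3 * Real.log 2 ≤ ψ * J := by
      have : 3 * Real.log 2 / ψ ≤ J := by linarith only [hNr, hJr, t1, t2, t3, t5, t7, t8]
      rw [div_le_iff₀ hψ] at this
      linarith only [this]
    have j5 : 2 * Real.log 2 ≤ κ * J := by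
      have : 2 * Real.log 2 / κ ≤ J := by linarith only [hNr, hJr, t1, t2, t3, t4, t7, t8]
      rw [div_le_iff₀ hκ] at this
      linarith only [this]
    have j6 : 6 * (N : ℝ) ≤ J := by linarith only [hJr, t1, t2, t3, t4, t5, t7, t8]
    have j7 : 32 * (n : ℝ) * N ≤ J := by linarith only [hNr, hJr, t1, t2, t3, t4, t5, t8]
    have j8 : 16 * (n : ℝ) * N * (k₀ + 1) ≤ J := by linarith only [hNr, hJr, t1, t2, t3, t4, t5, t7]
    have hJ0 : (0 : ℝ) < J := by linarith only [hNr, hJr, t1, t2, t3, t4, t5, t7, t8]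
    -- the unit
    obtain ⟨u, hu⟩ : ∃ u, u = J / N := ⟨_, rfl⟩
    have huN : N * u ≤ J := by rw [hu]; exact Nat.mul_div_le J N
    have hu1 : (J : ℝ) / N - 1 ≤ u := by
      have h1 : J < N * (u + 1) := by
        rw [hu]
        exact Nat.lt_mul_div_succ J hN
      have h2 : (J : ℝ) < N * (u + 1) := by exact_mod_cast h1
      rw [div_sub_one hNr.ne', div_le_iff₀ hNr]
      nlinarith only [h2]
    have hyN : 6 ≤ (J : ℝ) / N := by rw [le_div_iff₀ hNr]; exact j6
    have huJ : (u : ℝ) ≤ J / N := by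
      rw [le_div_iff₀ hNr]
      have : ((N * u : ℕ) : ℝ) ≤ J := by exact_mod_cast huN
      push_cast at this
      linarith only [this]
    exact by
     have hu5 : 5 ≤ u := by
       have : (5 : ℝ) ≤ u := by linarith only [hu1, hyN]
       exact_mod_cast this
     -- the parameters
     obtain ⟨a, ha⟩ : ∃ a, a = i * u := ⟨_, rfl⟩
     obtain ⟨a', ha'⟩ : ∃ a', a' = (i + 1) * u := ⟨_, rfl⟩
     obtain ⟨P, hP⟩ : ∃ P, P = p * u := ⟨_, rfl⟩
     obtain ⟨r, hr⟩ : ∃ r, r = ρ * u := ⟨_, rfl⟩
     have haa' : a' = a + u := by rw [ha', ha]; ring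
     have ha'P : a' ≤ P := by rw [ha', hP]; exact Nat.mul_le_mul_right _ hip
     have hPr : P ≤ r := by rw [hP, hr]; exact Nat.mul_le_mul_right _ hpρ
     have hrJ : r ≤ J := by rw [hr]; exact (Nat.mul_le_mul_right _ hρN).trans huN
     have haJ : a ≤ J := by omega
     obtain ⟨k, hk⟩ : ∃ k, k = u / (8 * n) := ⟨_, rfl⟩
     have hku : 8 * n * k ≤ u := by rw [hk]; exact Nat.mul_div_le u (8 * n)
     have hkJ : J / (16 * n * N) ≤ (k : ℝ) := by
       have h1 : u < 8 * n * (k + 1) := by
         rw [hk]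
         exact Nat.lt_mul_div_succ u (by positivity)
       have h2 : (u : ℝ) < 8 * n * (k + 1) := by exact_mod_cast h1
       rw [div_le_iff₀ (by positivity)]
       have h3 : (J : ℝ) / N - 1 < 8 * n * (k + 1) := by linarith only [hu1, h2]
       rw [div_sub_one hNr.ne', div_lt_iff₀ hNr] at h3
       nlinarith only [hNr, hJr, t1, t2, t3, t4, t5, t7, t8, h3]
     have hkk₀ : k₀ + 1 ≤ k := by
       have : ((k₀ : ℝ) + 1) ≤ k := by
         refine le_trans ?_ hkJ
         rw [le_div_iff₀ (by positivity)]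
         linarith only [hNr, hJr, t1, t2, t3, t4, t5, t7]
       exact_mod_cast this
     exact by
      have hkn : (4 * (n + 1)) ^ 2 ≤ 2 ^ k := hk₀.trans (Nat.pow_le_pow_right (by norm_num) (by omega))
      have hkτ : 48 * (τ * J) ≤ k * Real.log 2 := by
        have h1 : 48 * (τ * J) = J / (16 * n * N) * Real.log 2 := by
          rw [hτ]
          field_simp
          ring
        rw [h1]
        exact mul_le_mul_of_nonneg_right hkJ hl2.le
      have hkleu : k ≤ u := by
        have : k ≤ 8 * n * k := Nat.le_mul_of_pos_left _ (by positivity)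
        omega
      -- the data of the label
      rw [← hu, ← ha, ← hP, ← hr] at hTb
      obtain ⟨G, H, hlab, -⟩ := hTb.labD
      -- the Germ
      have hxJ : ((a + 2 : ℕ) : ℝ) + 1 / (2 * N) * J ≤ J := by
        have h1 : ((a + u : ℕ) : ℝ) ≤ J := by
          exact_mod_cast (by omega : a + u ≤ J)
        push_cast at h1 ⊢
        have h2 : 1 / (2 * (N : ℝ)) * J = J / N / 2 := by field_simp
        rw [h2]
        linarith only [hu1, hyN, h1]
      have hGerm : Pe F.p (fun ω => A ω ∧ ¬ Germ F i₁ r J K (a + 2) P (a + 1) (1 / (8 * N)) G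
          (Gtr F i₁) ω) ≤ Pe F.p A / 8 := by
        have h1 := hU i₁ hCh A (fun _ h => h) r J (a + 2) a (a + 2) P (a + 1) G (Gtr F i₁) H _ hrJ
          le_rfl (by omega) le_rfl hxJ
          ⟨hlab.1, hlab.2.1, fun ω hω => ⟨(hlab.2.2 ω hω).1, fun b hb => (hlab.2.2 ω hω).2 b
            (fun j => (hb j).trans (inv_mono (by omega)))⟩⟩
          (labD_triv F i₁ K (a := a + 2) (P := a + 1) (by omega) (by omega) A)
        refine h1.le.trans ?_
        have h2 : Real.exp (-(κ₁ * J)) ≤ 1 / 8 := by
          have h3 : Real.exp (-(κ₁ * J)) ≤ Real.exp (-(3 * Real.log 2)) :=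
            Real.exp_le_exp.2 (by linarith only [j3])
          have h4 : Real.exp (-(3 * Real.log 2)) = 1 / 8 := by
            rw [Real.exp_neg, show (3 : ℝ) * Real.log 2 = ((3 : ℕ) : ℝ) * Real.log 2 by norm_num,
              Real.exp_nat_mul, Real.exp_log (by norm_num)]
            norm_num
          rw [h4] at h3
          exact h3
        have := mul_le_mul_of_nonneg_right h2 (Pe_nonneg hp A)
        linarith only [this]
      -- the times
      exact by
       have hv := times_event F hSt hτ0.le (n := n + 1) (k := k) (a := a) (by omega) (by omega) hkn hkτ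
         (by omega)
       -- the slabs
       obtain ⟨n₁, hn₁⟩ : ∃ n₁, n₁ = ⌊g * (J : ℝ)⌋₊ := ⟨_, rfl⟩
       have hn₁le : (n₁ : ℝ) ≤ g * J := by rw [hn₁]; exact Nat.floor_le (by positivity)
       obtain ⟨δ, hδ⟩ : ∃ δ : ℝ, δ = 1 / (4 * (m + 1)) * (1 / 2 ^ n₁) := ⟨_, rfl⟩
       have h2n : (0 : ℝ) < 2 ^ n₁ := by positivity
       have h2n1 : (1 : ℝ) / 2 ^ n₁ ≤ 1 := by
         rw [div_le_one h2n]
         exact one_le_pow₀ (by norm_num)
       have hm4 : 1 / (4 * ((m : ℝ) + 1)) ≤ 1 / 4 := by
         refine one_div_le_one_div_of_le (by norm_num) ?_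
         linarith only
       have hδ2 : δ ≤ 1 / 4 := by
         rw [hδ]
         calc 1 / (4 * ((m : ℝ) + 1)) * (1 / 2 ^ n₁) ≤ 1 / 4 * 1 :=
               mul_le_mul hm4 h2n1 (by positivity) (by norm_num)
           _ = _ := mul_one _
       have hfl : h₁ * J - 1 ≤ (⌊h₁ * (J : ℝ)⌋₊ : ℝ) := by
         have := Nat.lt_floor_add_one (h₁ * (J : ℝ))
         linarith only [this]
       have hgJ : g * J ≤ h₁ / 2 * J := mul_le_mul_of_nonneg_right hgh hJ0.le
       have hh2 : 2 ≤ h₁ * J := by
         have h3 : Real.log 2 ≤ h₁ / 2 * J * Real.log 2 := by linarith only [hq0, j2]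
         have h4 : 1 ≤ h₁ / 2 * J := by
           by_contra hcon
           push Not at hcon
           have := mul_lt_mul_of_pos_right hcon hl2
           linarith only [hq0, j2, this]
         linarith only [h4]
       exact by
        have hnh : n₁ + 1 ≤ ⌊h₁ * (J : ℝ)⌋₊ := by
          refine Nat.le_floor ?_
          push_cast
          linarith only [hn₁le, hgJ, hh2]
        have hδg : 1 / 2 ^ ⌊h₁ * (J : ℝ)⌋₊ + 2 * m * δ ≤ 1 / 2 ^ n₁ := by
          have h1 : (1 : ℝ) / 2 ^ ⌊h₁ * (J : ℝ)⌋₊ ≤ 1 / 2 ^ (n₁ + 1) := inv_mono hnh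
          have h2 : (1 : ℝ) / 2 ^ (n₁ + 1) = 1 / 2 ^ n₁ / 2 := by rw [pow_succ]; field_simp
          have h3 : 2 * m * δ ≤ 1 / 2 ^ n₁ / 2 := by
            rw [hδ]
            have h4 : 2 * (m : ℝ) * (1 / (4 * (m + 1)) * (1 / 2 ^ n₁)) =
                (m / (m + 1)) * (1 / 2 ^ n₁ / 2) := by
              field_simp
              ring
            rw [h4]
            have h5 : (m : ℝ) / (m + 1) ≤ 1 := by
              rw [div_le_one (by linarith only)]
              linarith only
            calc (m : ℝ) / (m + 1) * (1 / 2 ^ n₁ / 2) ≤ 1 * (1 / 2 ^ n₁ / 2) :=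
                  mul_le_mul_of_nonneg_right h5 (by positivity)
              _ = _ := one_mul _
          linarith only [h1, h2, h3]
        obtain ⟨hst, hnf⟩ := slb_of_sp hCh hSp (δ := δ) (by linarith only [hδ2]) (by rw [← hn₁]; exact hδg) hψ.le a
        have hfan : ∀ B : F.Ω → Prop, Sub B A → Pe F.p A / 8 ≤ Pe F.p B →
            ¬ Fn (fun ω i => lB (chI i₁) (slam F a ω) (some i)) (Fam.pt F) (Slb m δ) B := by
          intro B hB hPB
          rcases hst with h | h
          · exact absurd h hnf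
          · refine h B hB (le_trans ?_ hPB)
            have h2 : Real.exp (-(ψ * J)) ≤ 1 / 8 := by
              have h3 : Real.exp (-(ψ * J)) ≤ Real.exp (-(3 * Real.log 2)) :=
                Real.exp_le_exp.2 (by linarith only [j4])
              have h4 : Real.exp (-(3 * Real.log 2)) = 1 / 8 := by
                rw [Real.exp_neg, show (3 : ℝ) * Real.log 2 = ((3 : ℕ) : ℝ) * Real.log 2 by norm_num,
                  Real.exp_nat_mul, Real.exp_log (by norm_num)]
                norm_num
              rw [h4] at h3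
              exact h3
            have := mul_le_mul_of_nonneg_right h2 (Pe_nonneg hp A)
            linarith only [this]
        -- the numbers
        exact by
         have hpow2 : ∀ t : ℕ, (2 : ℝ) ^ t = Real.exp (t * Real.log 2) := by
           intro t
           rw [Real.exp_nat_mul, Real.exp_log (by norm_num)]
         have hη : (2 : ℝ) ^ (1 / (8 * (N : ℝ)) * J) = Real.exp (J / N / 8 * Real.log 2) := by
           rw [Real.rpow_def_of_pos (by norm_num)]
           congr 1
           field_simp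
         have hCpos : 0 < C := by linarith only [hC]
         have hCe : ∀ t : ℝ, C * Real.exp t = Real.exp (Real.log C + t) := by
           intro t
           rw [Real.exp_add, Real.exp_log hCpos]
         have hy1 : Real.log 2 / (2 * N) * J = J / N / 2 * Real.log 2 := by field_simp
         rw [hy1] at j1
         obtain ⟨y, hy⟩ : ∃ y : ℝ, y = J / N := ⟨_, rfl⟩
         rw [← hy] at j1 hη hu1 hyN huJ
         have hyl : 6 * Real.log 2 ≤ y * Real.log 2 := mul_le_mul_of_nonneg_right hyN hl2.le
         have hnl : 1 * Real.log 2 ≤ n * Real.log 2 := mul_le_mul_of_nonneg_right hnr hl2.le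
         -- lower bound of the slab
         have hδlow : Real.exp (-(y / 4 * Real.log 2) - q) ≤ δ / 24 ∧
             Real.exp (-(h₁ / 2 * J * Real.log 2) - q) ≤ δ / 24 := by
           have h1 : δ / 24 = Real.exp (-(n₁ * Real.log 2) - q) := by
             rw [hδ, hpow2, sub_eq_add_neg, Real.exp_add, Real.exp_neg, Real.exp_neg, hq,
               Real.exp_log (by positivity)]
             field_simp
             norm_num
           rw [h1]
           constructor
           · refine Real.exp_le_exp.2 ?_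
             have h2 : g * J ≤ y / 4 := by
               rw [hy]
               calc g * J ≤ 1 / (4 * N) * J := mul_le_mul_of_nonneg_right hgN hJ0.le
                 _ = J / N / 4 := by field_simp
             have h3 : (n₁ : ℝ) * Real.log 2 ≤ y / 4 * Real.log 2 :=
               mul_le_mul_of_nonneg_right (hn₁le.trans h2) hl2.le
             linarith only [h3]
           · refine Real.exp_le_exp.2 ?_
             have h3 : (n₁ : ℝ) * Real.log 2 ≤ h₁ / 2 * J * Real.log 2 :=
               mul_le_mul_of_nonneg_right (hn₁le.trans hgJ) hl2.le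
             linarith only [h3]
         exact by
          have hauP : ((a : ℝ)) + u ≤ P := by exact_mod_cast (by omega : a + u ≤ P)
          have hauJ : ((a : ℝ)) + u ≤ J := by exact_mod_cast (by omega : a + u ≤ J)
          have n1 : C * 2 ^ ((k + 1) * n) * (2 ^ a / 2 ^ P) ≤ δ / 24 := by
            refine le_trans ?_ hδlow.1
            have h1 : C * 2 ^ ((k + 1) * n) * (2 ^ a / 2 ^ P) =
                Real.exp (Real.log C + (((k + 1) * n : ℕ) * Real.log 2 + (a * Real.log 2 -
                  P * Real.log 2))) := by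
              rw [hpow2, hpow2 a, hpow2 P, ← Real.exp_sub, mul_assoc, ← Real.exp_add, hCe]
            rw [h1]
            refine Real.exp_le_exp.2 ?_
            have h2 : (((k + 1) * n : ℕ) : ℝ) ≤ u / 8 + n := by
              push_cast
              have : ((8 * n * k : ℕ) : ℝ) ≤ u := by exact_mod_cast hku
              push_cast at this
              linarith only [this]
            have h3 : (((k + 1) * n : ℕ) : ℝ) * Real.log 2 ≤ (y / 8 + n) * Real.log 2 :=
              mul_le_mul_of_nonneg_right (by linarith only [huJ, h2]) hl2.le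
            have h4 : (a : ℝ) * Real.log 2 - P * Real.log 2 ≤ -((y - 1) * Real.log 2) := by
              have : (a - P + (y - 1)) * Real.log 2 ≤ 0 :=
                mul_nonpos_of_nonpos_of_nonneg (by linarith only [hu1, hauP]) hl2.le
              linarith only [this]
            rw [hb₁] at j1
            linarith only [hl2, hq0, hlC, j1, hnl, h3, h4]
          have n2 : (1 : ℝ) / 2 ^ ⌊h₁ * (J : ℝ)⌋₊ ≤ δ / 24 := by
            refine le_trans ?_ hδlow.2
            rw [hpow2, one_div, ← Real.exp_neg]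
            refine Real.exp_le_exp.2 ?_
            have h1 : (h₁ * J - 1) * Real.log 2 ≤ ⌊h₁ * (J : ℝ)⌋₊ * Real.log 2 :=
              mul_le_mul_of_nonneg_right hfl hl2.le
            linarith only [j2, h1]
          exact by
           have n3 : C * (2 : ℝ) ^ (1 / (8 * (N : ℝ)) * J) * (2 ^ a / 2 ^ J) ≤ δ / 24 := by
             refine le_trans ?_ hδlow.1
             have h1 : C * (2 : ℝ) ^ (1 / (8 * (N : ℝ)) * J) * (2 ^ a / 2 ^ J) =
                 Real.exp (Real.log C + (y / 8 * Real.log 2 + (a * Real.log 2 - J * Real.log 2))) := by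
               rw [hη, hpow2 a, hpow2 J, ← Real.exp_sub, mul_assoc, ← Real.exp_add, hCe]
             rw [h1]
             refine Real.exp_le_exp.2 ?_
             have h4 : (a : ℝ) * Real.log 2 - J * Real.log 2 ≤ -((y - 1) * Real.log 2) := by
               have : (a - J + (y - 1)) * Real.log 2 ≤ 0 :=
                 mul_nonpos_of_nonpos_of_nonneg (by linarith only [hu1, hauJ]) hl2.le
               linarith only [this]
             rw [hb₁] at j1
             linarith only [hl2, hq0, hlC, j1, hnl, h4]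
           have n4 : C * (2 : ℝ) ^ (1 / (8 * (N : ℝ)) * J) * (2 ^ a / 2 ^ a') ≤ 1 / 4 := by
             have h1 : C * (2 : ℝ) ^ (1 / (8 * (N : ℝ)) * J) * (2 ^ a / 2 ^ a') =
                 Real.exp (Real.log C + (y / 8 * Real.log 2 + (a * Real.log 2 - a' * Real.log 2))) := by
               rw [hη, hpow2 a, hpow2 a', ← Real.exp_sub, mul_assoc, ← Real.exp_add, hCe]
             have h2 : (1 : ℝ) / 4 = Real.exp (-(2 * Real.log 2)) := by
               rw [Real.exp_neg, show (2 : ℝ) * Real.log 2 = ((2 : ℕ) : ℝ) * Real.log 2 by norm_num,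
                 Real.exp_nat_mul, Real.exp_log (by norm_num)]
               norm_num
             rw [h1, h2]
             refine Real.exp_le_exp.2 ?_
             have h3 : (a' : ℝ) = a + u := by rw [haa']; push_cast; ring
             have h4 : (a : ℝ) * Real.log 2 - a' * Real.log 2 ≤ -((y - 1) * Real.log 2) := by
               have : (a - a' + (y - 1)) * Real.log 2 ≤ 0 :=
                 mul_nonpos_of_nonpos_of_nonneg (by linarith only [hu1, h3]) hl2.le
               linarith only [this]
             rw [hb₁] at j1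
             linarith only [hl2, hq0, hlC, j1, hnl, h4]
           -- conclusion
           exact by
            obtain ⟨B, hBA, hBP, hB⟩ := hone J F i₁ r a a' P k n ⌊h₁ * (J : ℝ)⌋₊ (1 / (8 * N)) δ A G H hn
              (by omega) (by omega) (by omega) hrJ (by
                have := hlab
                exact this) hCh hfan hGerm hv (by linarith only [n1, n2, n3]) (by linarith only [hδ2]) n4
            refine stb_part (hSb 0) hBA ?_ ?_
            · refine le_trans ?_ hBP
              have h2 : Real.exp (-(κ * J)) ≤ 1 / 4 := by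
                have h3 : Real.exp (-(κ * J)) ≤ Real.exp (-(2 * Real.log 2)) :=
                  Real.exp_le_exp.2 (by linarith only [j5])
                have h4 : Real.exp (-(2 * Real.log 2)) = 1 / 4 := by
                  rw [Real.exp_neg, show (2 : ℝ) * Real.log 2 = ((2 : ℕ) : ℝ) * Real.log 2 by norm_num,
                    Real.exp_nat_mul, Real.exp_log (by norm_num)]
                  norm_num
                rw [h4] at h3
                exact h3
              have := mul_le_mul_of_nonneg_right h2 (Pe_nonneg hp A)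
              linarith only [this]
            · change Lab F i₁ (ρ * (J / N)) K ((i + 1) * (J / N)) ((i + 1) * (J / N)) (p * (J / N)) B
              rw [← hu, ← ha', ← hP, ← hr]
              exact hB

end Pool.PB
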