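import Pool.Agent.H29.PB.Uniq
import Pool.Agent.H7.SLP.H5L
import Pool.Agent.H84.KBOX.BlkA
import Pool.Agent.H48.M5.Lag

/-!
# Slopes of labels: deterministic part

Bounds of the gradient and of its variation from bounds on balls; the equation of the directions
from separated samples of one line in one window.
-/

set_option autoImplicit false

namespace Pool.PB

open Finset Real MvPolynomial
open Pool.Agent.H49.Ent Pool.Agent.H32.Dense Pool.STK Pool.KA Pool.KSAT Pool.K2S Pool.KS3
open Pool.KAL Pool.FLF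

variable {m J : ℕ}

/-- The gradient of a polynomial which is small on a ball. -/
theorem grad_small (m K : ℕ) : ∃ C : ℝ, 1 ≤ C ∧ ∀ (D : MvPolynomial (Fin m) ℝ) (x : Fin m → ℝ)
    (r M : ℝ), D.totalDegree ≤ K → 0 < r →
    (∀ b : Fin m → ℝ, (∀ j, |b j - x j| ≤ r) → |eval b D| ≤ M) → ∀ j,
      Psi (pderiv j D) r x ≤ C * M / r := by
  obtain ⟨K₁, hK₁, h⟩ := exists_Psi_le_sup (Fin m) K
  refine ⟨(K + 1) * K₁, by nlinarith [Nat.cast_nonneg (α := ℝ) K], ?_⟩
  intro D x r M hD hr hM j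
  have h1 := h D r x M hD hr.le hM
  have h2 := Psi_pderiv_le D r hr.le x j
  have h0 := Psi_nonneg D r x
  rw [le_div_iff₀ hr, mul_comm]
  refine h2.trans ?_
  have h3 : (D.totalDegree : ℝ) ≤ K + 1 := by
    have : (D.totalDegree : ℝ) ≤ K := by exact_mod_cast hD
    linarith
  calc (D.totalDegree : ℝ) * Psi D r x ≤ (K + 1) * (K₁ * M) :=
        mul_le_mul h3 h1 h0 (by positivity)
    _ = _ := by ring

/-- The variation of the gradient of a polynomial which is nearly constant on a ball. -/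
theorem grad_lip (m K : ℕ) : ∃ C : ℝ, 1 ≤ C ∧ ∀ (G : MvPolynomial (Fin m) ℝ) (c : ℝ)
    (x : Fin m → ℝ) (r M : ℝ), G.totalDegree ≤ K → 0 < r →
    (∀ b : Fin m → ℝ, (∀ j, |b j - x j| ≤ r) → |eval b G - c| ≤ M) → ∀ (j : Fin m)
    (y y' : Fin m → ℝ) (s : ℝ), (∀ i, |y i - x i| ≤ r) → (∀ i, |y' i - x i| ≤ r) →
    (∀ i, |y' i - y i| ≤ s) →
      |eval y' (pderiv j G) - eval y (pderiv j G)| ≤ C * M / r ^ 2 * s := by
  obtain ⟨C₁, hC₁, h⟩ := grad_small m K
  refine ⟨m * ((K + 1) * C₁) + 1, by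
    have : 0 ≤ (m : ℝ) * ((K + 1) * C₁) := by positivity
    linarith, ?_⟩
  intro G c x r M hG hr hM j y y' s hy hy' hs
  have hM0 : 0 ≤ M := (abs_nonneg _).trans (hM x (fun j => by simp [hr.le]))
  have hd : (G - C c).totalDegree ≤ K := (totalDegree_sub _ _).trans
    (max_le hG (by rw [totalDegree_C]; exact Nat.zero_le _))
  have h1 := h (G - C c) x r M hd hr (fun b hb => by
    rw [map_sub, eval_C]
    exact hM b hb) j
  have e1 : pderiv j (G - C c) = pderiv j G := by rw [map_sub, pderiv_C, sub_zero]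
  rw [e1] at h1
  have hdj : (pderiv j G).totalDegree ≤ K := (pderiv_deg j G).trans hG
  have h2 : ∀ i, Psi (pderiv i (pderiv j G)) r x ≤ (K + 1) * (C₁ * M / r) / r := by
    intro i
    have h3 := Psi_pderiv_le (pderiv j G) r hr.le x i
    have h0 := Psi_nonneg (pderiv j G) r x
    rw [le_div_iff₀ hr, mul_comm]
    refine h3.trans ?_
    have h4 : ((pderiv j G).totalDegree : ℝ) ≤ K + 1 := by
      have : ((pderiv j G).totalDegree : ℝ) ≤ K := by exact_mod_cast hdj
      linarith
    exact mul_le_mul h4 h1 h0 (by positivity)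
  have hB0 : 0 ≤ (K + 1) * (C₁ * M / r) / r := by positivity
  have h5 := Pool.SLP.seg_lip (pderiv j G) ((K + 1) * (C₁ * M / r) / r) s hB0 y y' hs (by
    intro τ hτ0 hτ1 i
    refine (abs_eval_le_Psi_of_near _ r hr.le x _ ?_).trans (h2 i)
    intro l
    have h6 : y l + τ * (y' l - y l) - x l = (1 - τ) * (y l - x l) + τ * (y' l - x l) := by ring
    rw [h6]
    refine (abs_add_le _ _).trans ?_
    rw [abs_mul, abs_mul, abs_of_nonneg hτ0, abs_of_nonneg (by linarith : 0 ≤ 1 - τ)]
    have h7 := mul_le_mul_of_nonneg_left (hy l) (by linarith : 0 ≤ 1 - τ)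
    have h8 := mul_le_mul_of_nonneg_left (hy' l) hτ0
    linarith)
  refine h5.trans ?_
  have hs0 : 0 ≤ s ∨ m = 0 := by
    rcases Nat.eq_zero_or_pos m with h | h
    · exact Or.inr h
    · exact Or.inl ((abs_nonneg _).trans (hs ⟨0, h⟩))
  have e2 : (m : ℝ) * ((K + 1) * (C₁ * M / r) / r) * s = m * ((K + 1) * C₁) * (M / r ^ 2 * s) := by
    field_simp
  rw [e2]
  rcases hs0 with hs0 | hm
  · have h9 : 0 ≤ M / r ^ 2 * s := by positivity
    calc (m : ℝ) * ((K + 1) * C₁) * (M / r ^ 2 * s) ≤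
          (m * ((K + 1) * C₁) + 1) * (M / r ^ 2 * s) :=
          mul_le_mul_of_nonneg_right (by linarith) h9
      _ = _ := by ring
  · subst hm
    exact Fin.elim0 j

/-- **The equation of the direction.** -/
theorem slope_id {K n : ℕ} (hn : n = max K 1) (F : Fam m J) (i₁ : Fin m) {a k : ℕ} (ha : a ≤ J)
    (H : MvPolynomial (Fin m) ℝ) (hH : H.totalDegree ≤ K) (ω : F.Ω) (v : Fin (n + 1) → F.Ω)
    (hv : ∀ i, slam F a (v i) = slam F a ω)
    (hs : ∀ i j, i ≠ j → 1 / 2 ^ (a + k) ≤ |F.t (v i) - F.t (v j)|) {M : ℝ}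
    (hM : ∀ i, |F.x (v i) i₁ - eval (bp F i₁ (v i)) H| ≤ M) :
    |F.d ω i₁ - ∑ j, eval (bp F i₁ ω) (pderiv j H) * Function.update (F.d ω) i₁ 1 j| ≤
      (n + 1) * 2 ^ ((k + 1) * n) * M * 2 ^ a := by
  classical
  have ha0 : (0 : ℝ) < 2 ^ a := by positivity
  have hu : ∀ i, F.u (v i) = F.u ω := fun i => congrArg (fun s => s.1.1) (hv i)
  have hd : ∀ i, F.d (v i) = F.d ω := fun i => congrArg (fun s => s.1.2) (hv i)
  have hT : ∀ i, F.T1 a (v i) = F.T1 a ω := fun i => congrArg (fun s => s.2.2) (hv i)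
  obtain ⟨θ, hθ⟩ : ∃ θ : Fin (n + 1) → ℝ, θ = fun i => 2 ^ a * (F.t (v i) - F.t ω) := ⟨_, rfl⟩
  have hθ1 : ∀ i, |θ i| ≤ 1 := by
    intro i
    rw [hθ]
    have h1 := T1_real F ha (v i)
    have h2 := T1_real F ha ω
    rw [hT i] at h1
    rw [abs_le]
    constructor <;> nlinarith [h1.1, h1.2, h2.1, h2.2]
  have hθs : ∀ i j, i ≠ j → (2 : ℝ) ^ (-(k : ℤ)) ≤ |θ i - θ j| := by
    intro i j hij
    have h1 := hs i j hij
    have h2 : θ i - θ j = 2 ^ a * (F.t (v i) - F.t (v j)) := by rw [hθ]; ring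
    rw [h2, abs_mul, abs_of_pos ha0]
    calc (2 : ℝ) ^ (-(k : ℤ)) = 2 ^ a * (1 / 2 ^ (a + k)) := by
          rw [zpow_neg, zpow_natCast, pow_add]
          field_simp
      _ ≤ _ := mul_le_mul_of_nonneg_left h1 ha0.le
  have hinj := Pool.M5.L48.sep_injective hθs
  obtain ⟨w, hw⟩ : ∃ w : Fin m → ℝ, w = Function.update (F.d ω) i₁ 1 := ⟨_, rfl⟩
  obtain ⟨f, hf⟩ : ∃ f : Fin m → Polynomial ℝ, f = fun j =>
    Polynomial.C (bp F i₁ ω j) + Polynomial.C (1 / 2 ^ a * w j) * Polynomial.X := ⟨_, rfl⟩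
  obtain ⟨q, hq⟩ : ∃ q : Polynomial ℝ, q = Polynomial.C (F.x ω i₁) +
    Polynomial.C (1 / 2 ^ a * F.d ω i₁) * Polynomial.X - MvPolynomial.aeval f H := ⟨_, rfl⟩
  have hfd : ∀ j, (f j).natDegree ≤ 1 := by
    intro j
    rw [hf]
    refine (Polynomial.natDegree_add_le _ _).trans (max_le ?_ ?_)
    · rw [Polynomial.natDegree_C]
      exact Nat.zero_le _
    · exact (Polynomial.natDegree_C_mul_le _ _).trans Polynomial.natDegree_X_le
  have hqd : q.natDegree ≤ n := by
    rw [hq]
    refine (Polynomial.natDegree_sub_le _ _).trans (max_le ?_ ?_)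
    · refine (Polynomial.natDegree_add_le _ _).trans (max_le ?_ ?_)
      · rw [Polynomial.natDegree_C]
        exact Nat.zero_le _
      · refine ((Polynomial.natDegree_C_mul_le _ _).trans Polynomial.natDegree_X_le).trans ?_
        rw [hn]
        exact le_max_right _ _
    · refine (Pool.KBX.natDegree_aeval_le H f hfd hH).trans ?_
      rw [hn]
      exact le_max_left _ _
  -- the values
  have hval : ∀ i, q.eval (θ i) = F.x (v i) i₁ - eval (bp F i₁ (v i)) H := by
    intro i
    have hr : 1 / 2 ^ a * θ i = F.t (v i) - F.t ω := by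
      rw [hθ]
      field_simp
    have h1 : (fun j => (f j).eval (θ i)) = bp F i₁ (v i) := by
      funext j
      rw [hf]
      simp only [Polynomial.eval_add, Polynomial.eval_mul, Polynomial.eval_C, Polynomial.eval_X]
      rw [mul_right_comm, hr, hw]
      unfold bp
      by_cases hj : j = i₁
      · subst hj
        rw [Function.update_self, Function.update_self, Function.update_self]
        ring
      · rw [Function.update_of_ne hj, Function.update_of_ne hj, Function.update_of_ne hj]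
        unfold Fam.x
        rw [hu i, hd i]
        ring
    rw [hq]
    simp only [Polynomial.eval_add, Polynomial.eval_sub, Polynomial.eval_mul, Polynomial.eval_C,
      Polynomial.eval_X]
    rw [Pool.KBX.eval_aeval_poly, h1]
    congr 1
    rw [mul_right_comm, hr]
    unfold Fam.x
    rw [hu i, hd i]
    ring
  -- the coefficient
  have h2 := Pool.M5.L48.lag_le θ (fun i => q.eval (θ i)) hθ1 hθs (F := M)
    (fun i => by rw [hval]; exact hM i) 1
  rw [Pool.M5.L48.lag_poly hinj q hqd] at h2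
  have h3 : q.coeff 1 = 1 / 2 ^ a * (F.d ω i₁ -
      ∑ j, eval (bp F i₁ ω) (pderiv j H) * Function.update (F.d ω) i₁ 1 j) := by
    have h4 : q.coeff 1 = q.derivative.eval 0 := by
      rw [← Polynomial.coeff_zero_eq_eval_zero, Polynomial.coeff_derivative]
      push_cast
      ring
    have h5 : (fun j => (f j).eval 0) = bp F i₁ ω := by
      funext j
      rw [hf]
      simp
    have h6 : ∀ j, (f j).derivative = Polynomial.C (1 / 2 ^ a * w j) := by
      intro j
      rw [hf]
      simp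
    rw [h4, hq, Polynomial.derivative_sub, der_line]
    simp only [h6, Polynomial.derivative_add, Polynomial.derivative_C, Polynomial.derivative_mul,
      Polynomial.derivative_X, zero_mul, mul_one, zero_add, Polynomial.eval_sub, Polynomial.eval_C,
      Polynomial.eval_finsetSum, Polynomial.eval_mul, Pool.KBX.eval_aeval_poly, h5]
    rw [← hw, mul_sub, Finset.mul_sum]
    congr 1
    refine Finset.sum_congr rfl fun j _ => ?_
    ring
  rw [h3, abs_mul, abs_of_pos (by positivity : (0 : ℝ) < 1 / 2 ^ a)] at h2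
  have h7 := mul_le_mul_of_nonneg_right h2 ha0.le
  refine le_trans (le_of_eq ?_) h7
  field_simp

end Pool.PB
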