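import Pool.Agent.H29.PB.CnvA

/-!
# Slopes of labels: one family
-/

set_option autoImplicit false

namespace Pool.PB

open Finset Real MvPolynomial
open Pool.Agent.H49.Ent Pool.Agent.H32.Dense Pool.STK Pool.KA Pool.KSAT Pool.K2S Pool.KS3
open Pool.KAL Pool.FLF

variable {m J : ℕ}

/-- The directions satisfy the equation of the tangent plane of the label. -/
theorem label_slope (m K : ℕ) : ∃ C : ℝ, 1 ≤ C ∧ ∀ (J : ℕ) (F : Fam m J) (i₁ : Fin m)
    (r a P k n : ℕ) (G : (Fin m → ℤ) × (ℕ × F.ζ) → MvPolynomial (Fin m) ℝ)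
    (H : ((Fin m → ℝ) × (Fin m → ℝ)) × F.ζ × ℕ → MvPolynomial (Fin m) ℝ) (A : F.Ω → Prop),
    n = max K 1 → a ≤ J → LabD F i₁ r K a a P G H A → ∀ (ω : F.Ω) (v : Fin (n + 1) → F.Ω), A ω →
    (∀ i, A (v i)) → (∀ i, slam F a (v i) = slam F a ω) →
    (∀ i j, i ≠ j → 1 / 2 ^ (a + k) ≤ |F.t (v i) - F.t (v j)|) →
    |F.d ω i₁ - ∑ j, eval (bp F i₁ ω) (pderiv j (G (ptr F r ω))) *
      Function.update (F.d ω) i₁ 1 j| ≤ C * 2 ^ ((k + 1) * n) * (2 ^ a / 2 ^ P) := by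
  obtain ⟨C₁, hC₁, hgr⟩ := grad_small m K
  obtain ⟨n₀, hn₀⟩ : ∃ n₀, n₀ = max K 1 := ⟨_, rfl⟩
  refine ⟨2 * (n₀ + 1) + m * C₁, by
    have : (0 : ℝ) ≤ m * C₁ := by positivity
    have : (0 : ℝ) ≤ n₀ := Nat.cast_nonneg _
    linarith, ?_⟩
  intro J F i₁ r a P k n G H A hn ha hlab ω v hω hv hsl hsep
  have hnn : n = n₀ := by rw [hn, hn₀]
  have ha0 : (0 : ℝ) < 2 ^ a := by positivity
  have hP0 : (0 : ℝ) < 2 ^ P := by positivity
  have h0 : ∀ ω, A ω → |F.x ω i₁ - eval (bp F i₁ ω) (H (slam F a ω))| ≤ 2 / 2 ^ P := by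
    intro ω hω
    obtain ⟨h1, h2⟩ := hlab.2.2 ω hω
    have h3 := h2 (bp F i₁ ω) (fun j => by simp)
    have h4 : F.x ω i₁ - eval (bp F i₁ ω) (H (slam F a ω)) =
        (F.x ω i₁ - eval (bp F i₁ ω) (G (ptr F r ω))) +
        (eval (bp F i₁ ω) (G (ptr F r ω)) - eval (bp F i₁ ω) (H (slam F a ω))) := by ring
    have h5 : (2 : ℝ) / 2 ^ P = 1 / 2 ^ P + 1 / 2 ^ P := by ring
    rw [h4, h5]
    exact (abs_add_le _ _).trans (add_le_add h1 h3)
  have h1 := slope_id hn F i₁ ha (H (slam F a ω)) (hlab.2.1 _) ω v hsl hsep (M := 2 / 2 ^ P)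
    (fun i => by
      have := h0 (v i) (hv i)
      rwa [hsl i] at this)
  have h2 : ∀ j, |eval (bp F i₁ ω) (pderiv j (G (ptr F r ω))) -
      eval (bp F i₁ ω) (pderiv j (H (slam F a ω)))| ≤ C₁ * (2 ^ a / 2 ^ P) := by
    intro j
    have h3 := hgr (G (ptr F r ω) - H (slam F a ω)) (bp F i₁ ω) (1 / 2 ^ a) (1 / 2 ^ P)
      ((totalDegree_sub _ _).trans (max_le (hlab.1 _) (hlab.2.1 _))) (by positivity)
      (fun b hb => by
        rw [map_sub]
        exact (hlab.2.2 ω hω).2 b hb) j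
    have h4 := (abs_eval_le_Psi (pderiv j (G (ptr F r ω) - H (slam F a ω))) (1 / 2 ^ a)
      (bp F i₁ ω)).trans h3
    rw [map_sub, map_sub] at h4
    refine h4.trans (le_of_eq ?_)
    field_simp
  have h3 : ∀ j, |Function.update (F.d ω) i₁ 1 j| ≤ 1 := by
    intro j
    by_cases hj : j = i₁
    · subst hj
      rw [Function.update_self, abs_one]
    · rw [Function.update_of_ne hj]
      exact F.dir ω j
  have h4 : F.d ω i₁ - ∑ j, eval (bp F i₁ ω) (pderiv j (G (ptr F r ω))) *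
      Function.update (F.d ω) i₁ 1 j =
      (F.d ω i₁ - ∑ j, eval (bp F i₁ ω) (pderiv j (H (slam F a ω))) *
        Function.update (F.d ω) i₁ 1 j) -
      ∑ j, (eval (bp F i₁ ω) (pderiv j (G (ptr F r ω))) -
        eval (bp F i₁ ω) (pderiv j (H (slam F a ω)))) * Function.update (F.d ω) i₁ 1 j := by
    simp only [sub_mul, Finset.sum_sub_distrib]
    ring
  have h9 : |∑ j, (eval (bp F i₁ ω) (pderiv j (G (ptr F r ω))) -
      eval (bp F i₁ ω) (pderiv j (H (slam F a ω)))) * Function.update (F.d ω) i₁ 1 j| ≤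
      m * (C₁ * (2 ^ a / 2 ^ P)) := by
    refine (Finset.abs_sum_le_sum_abs _ _).trans ?_
    have h5 : ∀ j ∈ (univ : Finset (Fin m)), |(eval (bp F i₁ ω) (pderiv j (G (ptr F r ω))) -
        eval (bp F i₁ ω) (pderiv j (H (slam F a ω)))) * Function.update (F.d ω) i₁ 1 j| ≤
        C₁ * (2 ^ a / 2 ^ P) := by
      intro j _
      rw [abs_mul]
      calc _ ≤ C₁ * (2 ^ a / 2 ^ P) * 1 :=
            mul_le_mul (h2 j) (h3 j) (abs_nonneg _) (by positivity)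
        _ = _ := mul_one _
    refine (Finset.sum_le_sum h5).trans (le_of_eq ?_)
    rw [Finset.sum_const, Finset.card_univ, Fintype.card_fin, nsmul_eq_mul]
  rw [h4]
  refine (abs_sub _ _).trans ((add_le_add h1 h9).trans ?_)
  rw [hnn]
  have h6 : (1 : ℝ) ≤ 2 ^ ((k + 1) * n₀) := one_le_pow₀ (by norm_num)
  have h7 : 0 ≤ (m : ℝ) * C₁ * (2 ^ a / 2 ^ P) := by positivity
  have h8 : ((n₀ : ℝ) + 1) * 2 ^ ((k + 1) * n₀) * (2 / 2 ^ P) * 2 ^ a =
      2 * (n₀ + 1) * 2 ^ ((k + 1) * n₀) * (2 ^ a / 2 ^ P) := by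
    field_simp
  rw [h8]
  nlinarith

/-- The slopes of the label are those of the fans: otherwise the fans are in slabs. -/
theorem fan_slope (m K : ℕ) : ∃ C : ℝ, 1 ≤ C ∧ ∀ (J : ℕ) (F : Fam m J) (i₁ : Fin m)
    (r a h : ℕ) (G : (Fin m → ℤ) × (ℕ × F.ζ) → MvPolynomial (Fin m) ℝ) (N : F.Ω → Prop)
    (nn : (Fin m → ℤ) × (ℕ × F.ζ) → ℝ) (s : (Fin m → ℤ) × (ℕ × F.ζ) → Fin m → ℝ)
    (ε M δ : ℝ), r ≤ J → a ≤ J → (∀ y, (G y).totalDegree ≤ K) → 0 ≤ M →
    (∀ ω, N ω → s (Fam.pt F ω) i₁ = 0 ∧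
      |F.d ω i₁ - nn (Fam.pt F ω) - ∑ j, s (Fam.pt F ω) j * F.d ω j| ≤ 1 / 2 ^ h) →
    (∀ ω, N ω → |F.d ω i₁ - ∑ j, eval (bp F i₁ ω) (pderiv j (G (ptr F r ω))) *
      Function.update (F.d ω) i₁ 1 j| ≤ ε) →
    (∀ ω, N ω → ∃ c : ℝ, ∀ b : Fin m → ℝ, (∀ j, |b j - bp F i₁ ω j| ≤ 1 / 2 ^ a) →
      |eval b (G (ptr F r ω)) - c| ≤ M) →
    (∀ ω, N ω → ∃ j, j ≠ i₁ ∧ 1 / 8 ≤
      |eval (bp F i₁ ω) (pderiv j (G (ptr F r ω))) - s (Fam.pt F ω) j|) →
    8 * (ε + 1 / 2 ^ h + C * M * (2 ^ a) ^ 2 / 2 ^ J) ≤ δ → ∀ w : ℕ,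
    Fn (fun ω i => lB (chI i₁) (slam F w ω) (some i)) (Fam.pt F) (Slb m δ) N := by
  classical
  obtain ⟨C₁, hC₁, hgl⟩ := grad_lip m K
  refine ⟨m * C₁ + 1, by
    have : (0 : ℝ) ≤ m * C₁ := by positivity
    linarith, ?_⟩
  intro J F i₁ r a h G N nn s ε M δ hr ha hG hM0 hs hsl hM hbad hδ w
  obtain ⟨φ, hφ⟩ := ptr_coarse F hr
  have hJ0 : (0 : ℝ) < 2 ^ J := by positivity
  have ha0 : (0 : ℝ) < 2 ^ a := by positivity
  -- the vector of a sample
  obtain ⟨g, hg⟩ : ∃ g : F.Ω → Fin m → ℝ, g = fun ω j =>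
    eval (bp F i₁ ω) (pderiv j (G (ptr F r ω))) := ⟨_, rfl⟩
  refine ⟨fun ξ => if hξ : ∃ ω, N ω ∧ Fam.pt F ω = ξ then
    fun j => 8 * (g hξ.choose j - Function.update (s ξ) i₁ (nn ξ) j) else 0, ?_⟩
  intro ω hω
  have hex : ∃ ω', N ω' ∧ Fam.pt F ω' = Fam.pt F ω := ⟨ω, hω, rfl⟩
  simp only
  rw [dif_pos hex]
  obtain ⟨ω', hω'⟩ : ∃ ω', ω' = hex.choose := ⟨_, rfl⟩
  rw [← hω']
  have hN' : N ω' := by rw [hω']; exact hex.choose_spec.1
  have hpt : Fam.pt F ω' = Fam.pt F ω := by rw [hω']; exact hex.choose_spec.2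
  obtain ⟨hs1, hs2⟩ := hs ω hω
  -- the same point
  have hptr : ptr F r ω' = ptr F r ω := by
    have h1 := hφ ω'
    have h2 := hφ ω
    have h3 : ptr F J ω' = ptr F J ω := hpt
    rw [h1, h2, h3]
  have hbp : ∀ j, |bp F i₁ ω' j - bp F i₁ ω j| ≤ 1 / 2 ^ J := by
    intro j
    have h1 := bp_cell F i₁ (le_refl J) ω' j
    have h2 := bp_cell F i₁ (le_refl J) ω j
    have h3 : (F.T1 J ω', F.X J ω') = (F.T1 J ω, F.X J ω) := by
      have e1 : F.X J ω' = F.X J ω := congrArg (fun z => z.1) hpt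
      have e2 : F.T ω' = F.T ω := congrArg (fun z => z.2.1) hpt
      unfold Fam.T1
      rw [e1, e2]
    rw [h3] at h1
    rw [abs_le]
    constructor <;> linarith [h1.1, h1.2, h2.1, h2.2]
  have hJa : (1 : ℝ) / 2 ^ J ≤ 1 / 2 ^ a := inv_mono ha
  obtain ⟨c, hc⟩ := hM ω hω
  have hgg : ∀ j, |g ω' j - g ω j| ≤ C₁ * M * (2 ^ a) ^ 2 / 2 ^ J := by
    intro j
    rw [hg]
    simp only
    rw [hptr]
    have h1 := hgl (G (ptr F r ω)) c (bp F i₁ ω) (1 / 2 ^ a) M (hG _) (by positivity) hc j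
      (bp F i₁ ω) (bp F i₁ ω') (1 / 2 ^ J) (fun i => by simp)
      (fun i => (hbp i).trans hJa) hbp
    refine h1.trans (le_of_eq ?_)
    field_simp
  constructor
  · obtain ⟨j, hj, hj8⟩ := hbad ω' hN'
    refine ⟨j, ?_⟩
    beta_reduce
    rw [Function.update_of_ne hj, abs_mul, abs_of_pos (by norm_num : (0 : ℝ) < 8)]
    rw [hpt] at hj8
    have h1 : g ω' j = eval (bp F i₁ ω') (pderiv j (G (ptr F r ω'))) := by rw [hg]
    rw [h1]
    linarith
  · -- the slab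
    have e1 : ∑ i, 8 * (g ω' i - Function.update (s (Fam.pt F ω)) i₁ (nn (Fam.pt F ω)) i) *
        lB (chI i₁) (slam F w ω) (some i) =
        8 * ((F.d ω i₁ - nn (Fam.pt F ω) - ∑ j, s (Fam.pt F ω) j * F.d ω j) -
          (F.d ω i₁ - ∑ j, g ω j * Function.update (F.d ω) i₁ 1 j) +
          ∑ j, (g ω' j - g ω j) * Function.update (F.d ω) i₁ 1 j) := by
      have h1 : ∀ i, lB (chI i₁) (slam F w ω) (some i) = Function.update (F.d ω) i₁ 1 i :=
        fun i => lB_chI i₁ (slam F w ω) i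
      simp only [h1]
      have h2 : ∑ i, Function.update (s (Fam.pt F ω)) i₁ (nn (Fam.pt F ω)) i *
          Function.update (F.d ω) i₁ 1 i = nn (Fam.pt F ω) + ∑ j, s (Fam.pt F ω) j * F.d ω j := by
        rw [← Finset.add_sum_erase _ _ (Finset.mem_univ i₁), Function.update_self,
          Function.update_self, mul_one]
        congr 1
        rw [← Finset.add_sum_erase univ (fun j => s (Fam.pt F ω) j * F.d ω j)
          (Finset.mem_univ i₁), hs1, zero_mul, zero_add]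
        refine Finset.sum_congr rfl fun j hj => ?_
        have hj' := Finset.ne_of_mem_erase hj
        rw [Function.update_of_ne hj', Function.update_of_ne hj']
      have h3 : ∑ i, 8 * (g ω' i - Function.update (s (Fam.pt F ω)) i₁ (nn (Fam.pt F ω)) i) *
          Function.update (F.d ω) i₁ 1 i = 8 * (∑ i, g ω' i * Function.update (F.d ω) i₁ 1 i -
          ∑ i, Function.update (s (Fam.pt F ω)) i₁ (nn (Fam.pt F ω)) i *
            Function.update (F.d ω) i₁ 1 i) := by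
        rw [← Finset.sum_sub_distrib, Finset.mul_sum]
        refine Finset.sum_congr rfl fun j _ => ?_
        ring
      rw [h3, h2]
      simp only [sub_mul, Finset.sum_sub_distrib]
      ring
    rw [e1, abs_mul, abs_of_pos (by norm_num : (0 : ℝ) < 8)]
    have h4 := hsl ω hω
    have h4' : |F.d ω i₁ - ∑ j, g ω j * Function.update (F.d ω) i₁ 1 j| ≤ ε := by
      rw [hg]
      exact h4
    have h3 : ∀ j, |Function.update (F.d ω) i₁ 1 j| ≤ 1 := by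
      intro j
      by_cases hj : j = i₁
      · subst hj
        rw [Function.update_self, abs_one]
      · rw [Function.update_of_ne hj]
        exact F.dir ω j
    have h5 : |∑ j, (g ω' j - g ω j) * Function.update (F.d ω) i₁ 1 j| ≤
        m * (C₁ * M * (2 ^ a) ^ 2 / 2 ^ J) := by
      refine (Finset.abs_sum_le_sum_abs _ _).trans ?_
      have h6 : ∀ j ∈ (univ : Finset (Fin m)), |(g ω' j - g ω j) *
          Function.update (F.d ω) i₁ 1 j| ≤ C₁ * M * (2 ^ a) ^ 2 / 2 ^ J := by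
        intro j _
        rw [abs_mul]
        calc _ ≤ C₁ * M * (2 ^ a) ^ 2 / 2 ^ J * 1 :=
              mul_le_mul (hgg j) (h3 j) (abs_nonneg _) ((abs_nonneg _).trans (hgg j))
          _ = _ := mul_one _
      refine (Finset.sum_le_sum h6).trans (le_of_eq ?_)
      rw [Finset.sum_const, Finset.card_univ, Fintype.card_fin, nsmul_eq_mul]
    have h7 : (0 : ℝ) ≤ M * (2 ^ a) ^ 2 / 2 ^ J := by positivity
    have h8 : m * (C₁ * M * (2 ^ a) ^ 2 / 2 ^ J) ≤ (m * C₁ + 1) * M * (2 ^ a) ^ 2 / 2 ^ J := by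
      have e2 : m * (C₁ * M * (2 ^ a) ^ 2 / 2 ^ J) = m * C₁ * (M * (2 ^ a) ^ 2 / 2 ^ J) := by ring
      have e3 : (m * C₁ + 1) * M * (2 ^ a) ^ 2 / 2 ^ J =
          (m * C₁ + 1) * (M * (2 ^ a) ^ 2 / 2 ^ J) := by ring
      rw [e2, e3]
      exact mul_le_mul_of_nonneg_right (by linarith) h7
    refine le_trans ?_ hδ
    refine mul_le_mul_of_nonneg_left ?_ (by norm_num)
    rw [abs_le] at hs2 h4' h5 ⊢
    constructor <;> linarith [hs2.1, hs2.2, h4'.1, h4'.2, h5.1, h5.2]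

end Pool.PB
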