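import Pool.Agent.H29.PB.CnvB

/-!
# Ball labels with the gradient bound on a smaller ball: the event
-/

set_option autoImplicit false

namespace Pool.PB

open Finset Real MvPolynomial
open Pool.Agent.H49.Ent Pool.Agent.H32.Dense Pool.STK Pool.KA Pool.KSAT Pool.K2S Pool.KS3
open Pool.KAL Pool.FLF

variable {m J : ℕ}

/-- The constant germ of the position. -/
noncomputable def Gtr (F : Fam m J) (i₁ : Fin m) (y : (Fin m → ℤ) × (ℕ × F.ζ)) :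
    MvPolynomial (Fin m) ℝ := C ((y.1 i₁ : ℝ) / 2 ^ J)

/-- The trivial label. -/
theorem labD_triv (F : Fam m J) (i₁ : Fin m) (K : ℕ) {a P : ℕ} (hP : P + 1 ≤ a) (ha : a ≤ J)
    (A : F.Ω → Prop) : LabD F i₁ J K a a P (Gtr F i₁)
      (fun s => C (s.1.1 i₁ + (s.2.2 : ℝ) / 2 ^ a * s.1.2 i₁)) A := by
  refine ⟨fun y => ?_, fun s => ?_, fun ω _ => ?_⟩
  · unfold Gtr
    rw [totalDegree_C]; exact Nat.zero_le _
  · rw [totalDegree_C]; exact Nat.zero_le _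
  have hr0 : (0 : ℝ) < 2 ^ J := by positivity
  have e1 : (1 : ℝ) / 2 ^ J ≤ 1 / 2 ^ (P + 1) := inv_mono (by omega)
  have e2 : (1 : ℝ) / 2 ^ a ≤ 1 / 2 ^ (P + 1) := inv_mono hP
  have e3 : (1 : ℝ) / 2 ^ (P + 1) = 1 / 2 ^ P / 2 := by rw [pow_succ]; field_simp
  have e4 : (0 : ℝ) < 1 / 2 ^ P := by positivity
  have h1 : |F.x ω i₁ - ((F.X J ω i₁ : ℤ) : ℝ) / 2 ^ J| ≤ 1 / 2 ^ J := by
    have a1 := Int.floor_le ((2 : ℝ) ^ J * F.x ω i₁)
    have a2 := Int.lt_floor_add_one ((2 : ℝ) ^ J * F.x ω i₁)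
    have e : F.x ω i₁ - ((F.X J ω i₁ : ℤ) : ℝ) / 2 ^ J =
        (2 ^ J * F.x ω i₁ - ((⌊(2 : ℝ) ^ J * F.x ω i₁⌋ : ℤ) : ℝ)) / 2 ^ J := by
      change F.x ω i₁ - ((⌊(2 : ℝ) ^ J * F.x ω i₁⌋ : ℤ) : ℝ) / 2 ^ J = _
      field_simp
    rw [e, abs_div, abs_of_pos hr0]
    refine div_le_div_of_nonneg_right ?_ hr0.le
    rw [abs_le]
    constructor <;> linarith
  have h2 : |F.x ω i₁ - F.x1 a ω i₁| ≤ 1 / 2 ^ a := by
    have hw0 : (0 : ℝ) < 2 ^ a := by positivity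
    have b1 := T1_real F ha ω
    have e : F.x ω i₁ - F.x1 a ω i₁ = (2 ^ a * F.t ω - F.T1 a ω) / 2 ^ a * F.d ω i₁ := by
      unfold Fam.x Fam.x1
      field_simp
      ring
    rw [e, abs_mul]
    have b2 : |(2 ^ a * F.t ω - F.T1 a ω) / 2 ^ a| ≤ 1 / 2 ^ a := by
      rw [abs_div, abs_of_pos hw0]
      refine div_le_div_of_nonneg_right ?_ hw0.le
      rw [abs_le]
      constructor <;> linarith [b1.1, b1.2]
    calc _ ≤ 1 / 2 ^ a * 1 := mul_le_mul b2 (F.dir ω i₁) (abs_nonneg _) (by positivity)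
      _ = _ := mul_one _
  refine ⟨?_, fun b _ => ?_⟩
  · unfold Gtr
    rw [eval_C]
    change |F.x ω i₁ - ((F.X J ω i₁ : ℤ) : ℝ) / 2 ^ J| ≤ 1 / 2 ^ P
    linarith
  · unfold Gtr
    rw [eval_C, eval_C]
    change |((F.X J ω i₁ : ℤ) : ℝ) / 2 ^ J - F.x1 a ω i₁| ≤ 1 / 2 ^ P
    rw [abs_le] at h1 h2 ⊢
    constructor <;> linarith [h1.1, h1.2, h2.1, h2.2]

/-- The label in the smaller ball, on an event of proportion at least one quarter. -/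
theorem cnv_one (m K : ℕ) : ∃ C : ℝ, 1 ≤ C ∧ ∀ (J : ℕ) (F : Fam m J) (i₁ : Fin m)
    (r a a' P k n h : ℕ) (η δ : ℝ) (A : F.Ω → Prop)
    (G : (Fin m → ℤ) × (ℕ × F.ζ) → MvPolynomial (Fin m) ℝ)
    (H : ((Fin m → ℝ) × (Fin m → ℝ)) × F.ζ × ℕ → MvPolynomial (Fin m) ℝ),
    n = max K 1 → a + 1 ≤ a' → a' ≤ J → a + 1 ≤ P → r ≤ J → LabD F i₁ r K a a P G H A →
    Ch F i₁ h A →
    (∀ B : F.Ω → Prop, Sub B A → Pe F.p A / 8 ≤ Pe F.p B →
      ¬ Fn (fun ω i => lB (chI i₁) (slam F a ω) (some i)) (Fam.pt F) (Slb m δ) B) →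
    Pe F.p (fun ω => A ω ∧ ¬ Germ F i₁ r J K (a + 2) P (a + 1) η G (Gtr F i₁) ω) ≤
      Pe F.p A / 8 →
    Pe F.p (fun ω => A ω ∧ ¬ ∃ v : Fin (n + 1) → F.Ω, (∀ i, A (v i)) ∧
      (∀ i, slam F a (v i) = slam F a ω) ∧
      ∀ i j, i ≠ j → 1 / 2 ^ (a + k) ≤ |F.t (v i) - F.t (v j)|) ≤ Pe F.p A / 4 →
    C * 2 ^ ((k + 1) * n) * (2 ^ a / 2 ^ P) + 1 / 2 ^ h +
      C * (2 : ℝ) ^ (η * J) * (2 ^ a / 2 ^ J) ≤ δ / 8 → δ ≤ 1 / 2 →
    C * (2 : ℝ) ^ (η * J) * (2 ^ a / 2 ^ a') ≤ 1 / 4 →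
    ∃ B : F.Ω → Prop, Sub B A ∧ Pe F.p A / 4 ≤ Pe F.p B ∧ Lab F i₁ r K a' a' P B := by
  classical
  obtain ⟨C₁, hC₁, hlab1⟩ := label_slope m K
  obtain ⟨C₂, hC₂, hfan2⟩ := fan_slope m K
  obtain ⟨C₃, hC₃, hgl⟩ := grad_lip m K
  obtain ⟨C, hC⟩ : ∃ C : ℝ, C = C₁ + (C₂ + C₃) * 4 ^ K := ⟨_, rfl⟩
  have h4K : (1 : ℝ) ≤ 4 ^ K := one_le_pow₀ (by norm_num)
  have hCC₁ : C₁ ≤ C := by
    rw [hC]
    have : 0 ≤ (C₂ + C₃) * 4 ^ K := by positivity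
    linarith
  have hCC₂ : C₂ * 4 ^ K ≤ C := by
    rw [hC]
    have : 0 ≤ C₃ * 4 ^ K := by positivity
    nlinarith
  have hCC₃ : C₃ * 4 ^ K ≤ C := by
    rw [hC]
    have : 0 ≤ C₂ * 4 ^ K := by positivity
    nlinarith
  have hC1 : 1 ≤ C := by linarith
  refine ⟨C, hC1, ?_⟩
  intro J F i₁ r a a' P k n h η δ A G H hn haa' ha'J haP hr hlab hCh hfan hGerm hv hnum hδ hnum2
  have hp := F.isLaw
  have ha : a ≤ J := by omega
  have ha0 : (0 : ℝ) < 2 ^ a := by positivity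
  have hm1 : 1 ≤ m := Fin.pos i₁
  have hmr : (1 : ℝ) ≤ m := by exact_mod_cast hm1
  obtain ⟨nn, s, hns⟩ := hCh
  obtain ⟨E, hE⟩ : ∃ E : ℝ, E = (2 : ℝ) ^ (η * J) := ⟨_, rfl⟩
  have hE0 : 0 < E := by rw [hE]; positivity
  obtain ⟨ε, hε⟩ : ∃ ε : ℝ, ε = C₁ * 2 ^ ((k + 1) * n) * (2 ^ a / 2 ^ P) := ⟨_, rfl⟩
  obtain ⟨M, hM⟩ : ∃ M : ℝ, M = 4 ^ K * E / 2 ^ (a + 1) := ⟨_, rfl⟩
  have hM0 : 0 ≤ M := by rw [hM]; positivity
  obtain ⟨gd, hgd⟩ : ∃ gd : F.Ω → Fin m → ℝ, gd = fun ω j =>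
    eval (bp F i₁ ω) (pderiv j (G (ptr F r ω))) := ⟨_, rfl⟩
  -- the events
  obtain ⟨E₁, hE₁⟩ : ∃ E₁ : F.Ω → Prop, E₁ = fun ω =>
    Germ F i₁ r J K (a + 2) P (a + 1) η G (Gtr F i₁) ω := ⟨_, rfl⟩
  obtain ⟨E₂, hE₂⟩ : ∃ E₂ : F.Ω → Prop, E₂ = fun ω => ∃ v : Fin (n + 1) → F.Ω,
    (∀ i, A (v i)) ∧ (∀ i, slam F a (v i) = slam F a ω) ∧
      ∀ i j, i ≠ j → 1 / 2 ^ (a + k) ≤ |F.t (v i) - F.t (v j)| := ⟨_, rfl⟩
  obtain ⟨E₃, hE₃⟩ : ∃ E₃ : F.Ω → Prop, E₃ = fun ω => ∀ j, j ≠ i₁ →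
    |gd ω j - s (Fam.pt F ω) j| < 1 / 8 := ⟨_, rfl⟩
  -- consequences
  have hsl : ∀ ω, A ω → E₂ ω → |F.d ω i₁ - ∑ j, gd ω j * Function.update (F.d ω) i₁ 1 j| ≤ ε := by
    intro ω hω h2
    rw [hE₂] at h2
    obtain ⟨v, hv1, hv2, hv3⟩ := h2
    rw [hgd, hε]
    exact hlab1 J F i₁ r a P k n G H A hn ha hlab ω v hω hv1 hv2 hv3
  have hgm : ∀ ω, A ω → E₁ ω → ∃ c : ℝ, ∀ b : Fin m → ℝ, (∀ j, |b j - bp F i₁ ω j| ≤ 1 / 2 ^ a) →
      |eval b (G (ptr F r ω)) - c| ≤ M := by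
    intro ω hω h1
    rw [hE₁] at h1
    refine ⟨((ptr F J ω).1 i₁ : ℝ) / 2 ^ J, fun b hb => ?_⟩
    have h2 := h1 4 (by norm_num) b (fun j => (hb j).trans (le_of_eq (by
      rw [pow_add]
      field_simp
      norm_num)))
    unfold Gtr at h2
    rw [eval_C, min_eq_right haP, ← hE] at h2
    rw [hM]
    exact h2
  -- the numbers
  have hεδ : ε + 1 / 2 ^ h + C₂ * M * (2 ^ a) ^ 2 / 2 ^ J ≤ δ / 8 := by
    refine le_trans ?_ hnum
    have h1 : ε ≤ C * 2 ^ ((k + 1) * n) * (2 ^ a / 2 ^ P) := by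
      rw [hε]
      exact mul_le_mul_of_nonneg_right (mul_le_mul_of_nonneg_right hCC₁ (by positivity))
        (by positivity)
    have h2 : C₂ * M * (2 ^ a) ^ 2 / 2 ^ J ≤ C * (2 : ℝ) ^ (η * J) * (2 ^ a / 2 ^ J) := by
      rw [hM, ← hE]
      have e1 : C₂ * (4 ^ K * E / 2 ^ (a + 1)) * (2 ^ a) ^ 2 / 2 ^ J =
          C₂ * 4 ^ K * (E * (2 ^ a / 2 ^ J) / 2) := by
        rw [pow_succ]
        field_simp
      have e2 : C * E * (2 ^ a / 2 ^ J) = C * (E * (2 ^ a / 2 ^ J)) := by ring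
      rw [e1, e2]
      refine mul_le_mul hCC₂ ?_ (by positivity) (by linarith)
      have : 0 < E * (2 ^ a / 2 ^ J) := by positivity
      linarith
    linarith
  have hε16 : ε ≤ 1 / 16 := by
    have h1 : (0 : ℝ) ≤ 1 / 2 ^ h := by positivity
    have h2 : 0 ≤ C₂ * M * (2 ^ a) ^ 2 / 2 ^ J := by positivity
    linarith
  -- the third event
  have hN : Pe F.p (fun ω => (A ω ∧ E₁ ω ∧ E₂ ω) ∧ ¬ E₃ ω) < Pe F.p A / 8 := by
    by_contra hcon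
    push Not at hcon
    refine hfan _ (fun ω hω => hω.1.1) hcon ?_
    refine hfan2 J F i₁ r a h G _ nn s ε M δ hr ha hlab.1 hM0 (fun ω hω => ?_) (fun ω hω => ?_)
      (fun ω hω => hgm ω hω.1.1 hω.1.2.1) (fun ω hω => ?_) (by linarith) a
    · have := hns ω hω.1.1
      exact ⟨this.1, this.2.2⟩
    · have := hsl ω hω.1.1 hω.1.2.2
      rw [hgd] at this
      exact this
    · have h1 := hω.2
      rw [hE₃, hgd] at h1
      push Not at h1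
      exact h1
  -- the event
  obtain ⟨B, hB⟩ : ∃ B : F.Ω → Prop, B = fun ω => (A ω ∧ E₁ ω ∧ E₂ ω) ∧ E₃ ω := ⟨_, rfl⟩
  refine ⟨B, fun ω hω => by rw [hB] at hω; exact hω.1.1, ?_, ?_⟩
  · have h1 := Pe_or hp (A := A) (B₀ := fun ω => A ω ∧ ¬ E₁ ω) (B₁ := fun ω => A ω ∧ E₁ ω)
      (fun ω hω => by
        by_cases h : E₁ ω
        · exact Or.inr ⟨hω, h⟩
        · exact Or.inl ⟨hω, h⟩)
    have h2 := Pe_or hp (A := fun ω => A ω ∧ E₁ ω) (B₀ := fun ω => A ω ∧ ¬ E₂ ω)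
      (B₁ := fun ω => A ω ∧ E₁ ω ∧ E₂ ω)
      (fun ω hω => by
        by_cases h : E₂ ω
        · exact Or.inr ⟨hω.1, hω.2, h⟩
        · exact Or.inl ⟨hω.1, h⟩)
    have h3 := Pe_or hp (A := fun ω => A ω ∧ E₁ ω ∧ E₂ ω)
      (B₀ := fun ω => (A ω ∧ E₁ ω ∧ E₂ ω) ∧ ¬ E₃ ω) (B₁ := B)
      (fun ω hω => by
        rw [hB]
        by_cases h : E₃ ω
        · exact Or.inr ⟨hω, h⟩
        · exact Or.inl ⟨hω, h⟩)
    have h4 : Pe F.p (fun ω => A ω ∧ ¬ E₂ ω) ≤ Pe F.p A / 4 := by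
      rw [hE₂]
      exact hv
    have h5 : Pe F.p (fun ω => A ω ∧ ¬ E₁ ω) ≤ Pe F.p A / 8 := by
      rw [hE₁]
      exact hGerm
    have h6 := Pe_nonneg hp A
    linarith
  -- the label
  refine ⟨G, fun s => H (s.1, s.2.1, s.2.2 / 2 ^ (a' - a)), hlab.1, fun s => hlab.2.1 _,
    fun ω hω => ?_⟩
  rw [hB] at hω
  obtain ⟨⟨hA, h1, h2⟩, h3⟩ := hω
  obtain ⟨l1, l2⟩ := hlab.2.2 ω hA
  refine ⟨l1, fun b hb => ⟨?_, ?_⟩⟩
  · -- slopes
    have hslope : ∀ j, |gd ω j| ≤ 2 * m - 1 / 4 := by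
      have hoff : ∀ j, j ≠ i₁ → |gd ω j| ≤ 9 / 8 := by
        intro j hj
        rw [hE₃] at h3
        have h4 := h3 j hj
        have h5 := (hns ω hA).2.1 j
        have h6 : gd ω j = (gd ω j - s (Fam.pt F ω) j) + s (Fam.pt F ω) j := by ring
        rw [h6]
        refine (abs_add_le _ _).trans ?_
        linarith
      have hdiag : |gd ω i₁| ≤ 1 + (m - 1) * (9 / 8) + 1 / 16 := by
        have h4 := hsl ω hA h2
        have h5 : ∑ j, gd ω j * Function.update (F.d ω) i₁ 1 j =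
            gd ω i₁ + ∑ j ∈ univ.erase i₁, gd ω j * F.d ω j := by
          rw [← Finset.add_sum_erase _ _ (Finset.mem_univ i₁), Function.update_self, mul_one]
          congr 1
          refine Finset.sum_congr rfl fun j hj => ?_
          rw [Function.update_of_ne (Finset.ne_of_mem_erase hj)]
        rw [h5] at h4
        have h6 : |∑ j ∈ univ.erase i₁, gd ω j * F.d ω j| ≤ (m - 1) * (9 / 8) := by
          refine (Finset.abs_sum_le_sum_abs _ _).trans ?_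
          have h7 : ∀ j ∈ univ.erase i₁, |gd ω j * F.d ω j| ≤ 9 / 8 := by
            intro j hj
            rw [abs_mul]
            calc |gd ω j| * |F.d ω j| ≤ 9 / 8 * 1 :=
                  mul_le_mul (hoff j (Finset.ne_of_mem_erase hj)) (F.dir ω j) (abs_nonneg _)
                    (by norm_num)
              _ = _ := mul_one _
          refine (Finset.sum_le_sum h7).trans (le_of_eq ?_)
          rw [Finset.sum_const, Finset.card_erase_of_mem (Finset.mem_univ i₁), Finset.card_univ,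
            Fintype.card_fin, nsmul_eq_mul, Nat.cast_sub hm1, Nat.cast_one]
        have h8 := F.dir ω i₁
        rw [abs_le] at h4 h6 h8 ⊢
        constructor <;> linarith [h4.1, h4.2, h6.1, h6.2, h8.1, h8.2]
      intro j
      by_cases hj : j = i₁
      · rw [hj]
        refine hdiag.trans ?_
        linarith
      · refine (hoff j hj).trans ?_
        -- `m ≥ 1`
        linarith
    obtain ⟨c, hc⟩ := hgm ω hA h1
    have ha'a : (1 : ℝ) / 2 ^ a' ≤ 1 / 2 ^ a := inv_mono (by omega)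
    intro j
    have h4 := hgl (G (ptr F r ω)) c (bp F i₁ ω) (1 / 2 ^ a) M (hlab.1 _) (by positivity) hc j
      (bp F i₁ ω) b (1 / 2 ^ a') (fun i => by simp) (fun i => (hb i).trans ha'a) hb
    have h5 : C₃ * M / (1 / 2 ^ a) ^ 2 * (1 / 2 ^ a') ≤ 1 / 4 := by
      refine le_trans ?_ hnum2
      rw [hM, ← hE]
      have e1 : C₃ * (4 ^ K * E / 2 ^ (a + 1)) / (1 / 2 ^ a) ^ 2 * (1 / 2 ^ a') =
          C₃ * 4 ^ K * (E * (2 ^ a / 2 ^ a') / 2) := by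
        rw [pow_succ]
        field_simp
      have e2 : C * E * (2 ^ a / 2 ^ a') = C * (E * (2 ^ a / 2 ^ a')) := by ring
      rw [e1, e2]
      refine mul_le_mul hCC₃ ?_ (by positivity) (by linarith)
      have : 0 < E * (2 ^ a / 2 ^ a') := by positivity
      linarith
    have h6 := hslope j
    rw [hgd] at h6
    have h7 := h4.trans h5
    have h8 := abs_sub_abs_le_abs_sub (eval b (pderiv j (G (ptr F r ω))))
      (eval (bp F i₁ ω) (pderiv j (G (ptr F r ω))))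
    simp only at h6
    linarith
  · have h4 := l2 b (fun j => (hb j).trans (inv_mono (by omega)))
    rw [slam_coarse F (by omega : a ≤ a') ha'J ω] at h4
    exact h4

end Pool.PB
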