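import Pool.Agent.H37.STPA.Full
import Pool.Agent.H41.L1.REM
import Pool.Agent.H18.PB.Tb

/-!
# Uniqueness of the germs: Remez inequality on cells, the core for one family

Two polynomial labels through the sample, with conserved germs: on the fibers of the join of the
two labels the base point has almost full entropy, hence the two germs agree.
-/

set_option autoImplicit false

namespace Pool.PB

open Finset Real MvPolynomial
open Pool.Agent.H49.Ent Pool.Agent.H32.Dense Pool.STK Pool.KA Pool.KSAT Pool.K2S Pool.KS3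
open Pool.KAL Pool.FLF

variable {m J : ℕ}

/-- Growth of polynomials on large cubes. -/
lemma eval_le_pow {m : ℕ} (P : MvPolynomial (Fin m) ℝ) {K : ℕ} (hP : P.totalDegree ≤ K) {R : ℝ}
    (hR : 1 ≤ R) (u : Fin m → ℝ) (hu : ∀ i, |u i| ≤ R) : |eval u P| ≤ R ^ K * coefSum P := by
  have h1 := abs_eval_le_Psi_of_near P R (by linarith) (fun _ => 0) u (by simpa using hu)
  have h2 := Psi_radius_le P 1 R hR (fun _ => (0 : ℝ))
  rw [one_mul] at h2
  have h3 : Psi P 1 (fun _ => (0 : ℝ)) = coefSum P := by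
    unfold Psi
    rw [shf_zero_one]
  rw [h3] at h2
  refine h1.trans (h2.trans ?_)
  exact mul_le_mul_of_nonneg_right (pow_le_pow_right₀ hR hP) (coefSum_nonneg _)

/-- The degree of a partial derivative. -/
lemma pderiv_deg {m : ℕ} (i : Fin m) (P : MvPolynomial (Fin m) ℝ) :
    (pderiv i P).totalDegree ≤ P.totalDegree := by
  classical
  conv_lhs => rw [P.as_sum, map_sum]
  refine (totalDegree_finsetSum _ _).trans (Finset.sup_le fun s hs => ?_)
  rw [pderiv_monomial]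
  refine (totalDegree_monomial_le _ _).trans ?_
  refine le_trans ?_ (le_totalDegree hs)
  exact Finsupp.sum_le_sum_index tsub_le_self (fun _ _ => monotone_id) (fun _ _ => rfl)

/-- Lipschitz bound on the unit cube. -/
lemma eval_lip {m : ℕ} (P : MvPolynomial (Fin m) ℝ) {K : ℕ} (hP : P.totalDegree ≤ K) {s : ℝ}
    (hs : 0 ≤ s) (hs1 : s ≤ 1) (y y' : Fin m → ℝ) (hy : ∀ i, 0 ≤ y i ∧ y i ≤ 1)
    (hy' : ∀ i, y i ≤ y' i ∧ y' i ≤ y i + s) :
    |eval y' P - eval y P| ≤ m * (K * (2 ^ K * coefSum P)) * s := by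
  have hC : 0 ≤ (K : ℝ) * (2 ^ K * coefSum P) :=
    mul_nonneg (Nat.cast_nonneg K) (mul_nonneg (by positivity) (coefSum_nonneg _))
  refine mean_value P y s (K * (2 ^ K * coefSum P)) hC ?_ y y' ?_ ?_
  · intro z hz i
    have hz' : ∀ j, |z j| ≤ 2 := by
      intro j
      have h1 := hz j
      have h2 := hy j
      rw [abs_le]
      constructor <;> linarith [h1.1, h1.2, h2.1, h2.2]
    have hd : (pderiv i P).totalDegree ≤ K := by
      refine le_trans ?_ hP
      exact pderiv_deg i P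
    refine (eval_le_pow (pderiv i P) hd (by norm_num) z hz').trans ?_
    have h3 := coefSum_pderiv_le P i
    have h4 : (P.totalDegree : ℝ) * coefSum P ≤ K * coefSum P :=
      mul_le_mul_of_nonneg_right (by exact_mod_cast hP) (coefSum_nonneg _)
    calc (2 : ℝ) ^ K * coefSum (pderiv i P) ≤ 2 ^ K * (K * coefSum P) :=
          mul_le_mul_of_nonneg_left (h3.trans h4) (by positivity)
      _ = _ := by ring
  · intro j
    exact ⟨le_rfl, by linarith⟩
  · intro j
    exact hy' j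

/-- **Remez inequality on cells.** The polynomial is small at a real point of the cell `y` of side
`2 ^ (-L)`, and `y` has almost full entropy. -/
theorem rem_cells (m K : ℕ) : ∃ C : ℝ, 1 ≤ C ∧ ∀ (Ω : Type) [Fintype Ω] (q : Ω → ℝ) (L : ℕ)
    (y : Ω → Fin m → ℕ) (z : Ω → Fin m → ℝ) (D : MvPolynomial (Fin m) ℝ) (e M : ℝ), IsLaw q →
    D.totalDegree ≤ K → 0 ≤ e → 0 ≤ M →
    (∀ ω, 0 < q ω → ∀ j, (y ω j : ℝ) / 2 ^ L ≤ z ω j ∧ z ω j ≤ (y ω j : ℝ) / 2 ^ L + 1 / 2 ^ L ∧
      z ω j ≤ 1) →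
    m * (L * Real.log 2) - e ≤ H q y → C * Real.exp (C * e) ≤ 2 ^ L →
    (∀ ω, 0 < q ω → |eval (z ω) D| ≤ M) → coefSum D ≤ C * Real.exp (C * e) * M := by
  classical
  obtain ⟨C₁, hC₁, h₁⟩ := Pool.L1.rem_full m K 1
  obtain ⟨C₂, hC₂, h₂⟩ := coefSum_le_unit m K
  obtain ⟨b, hb⟩ : ∃ b : ℝ, b = m * (K * 2 ^ K) := ⟨_, rfl⟩
  have hb0 : 0 ≤ b := by rw [hb]; positivity
  obtain ⟨C, hC⟩ : ∃ C : ℝ, C = 2 * (C₂ * C₁) * (b + 1) := ⟨_, rfl⟩
  have hCC : 1 ≤ C₂ * C₁ := one_le_mul_of_one_le_of_one_le hC₂ hC₁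
  have hC₁C : C₁ ≤ C₂ * C₁ := by nlinarith
  have hCb : 2 * (C₂ * C₁) ≤ C := by rw [hC]; nlinarith
  have hC1 : C₁ ≤ C := by linarith
  refine ⟨C, by linarith, ?_⟩
  intro Ω _ q L y z D e M hq hD he hM hyz hH hsz hsm
  have hL0 : (0 : ℝ) < 2 ^ L := by positivity
  have hL1 : (1 : ℝ) ≤ 2 ^ L := one_le_pow₀ (by norm_num)
  have hexp : Real.exp (C₁ * e) ≤ Real.exp (C * e) :=
    Real.exp_le_exp.mpr (mul_le_mul_of_nonneg_right hC1 he)
  have hE0 := Real.exp_pos (C₁ * e)
  have hS0 := coefSum_nonneg D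
  obtain ⟨E, hE⟩ : ∃ E, E = Real.exp (C₁ * e) := ⟨_, rfl⟩
  obtain ⟨S, hS⟩ : ∃ S, S = coefSum D := ⟨_, rfl⟩
  have hy0 : ∀ ω, 0 < q ω → ∀ j, 0 ≤ (y ω j : ℝ) / 2 ^ L ∧ (y ω j : ℝ) / 2 ^ L ≤ 1 := by
    intro ω hω j
    obtain ⟨h3, h4, h5⟩ := hyz ω hω j
    exact ⟨by positivity, by linarith⟩
  have key : ∀ x : Fin m → ℝ, (∀ i, |x i| ≤ 2 ^ 1) →
      |eval x D| ≤ C₁ * Real.exp (C₁ * e) * (M + b * S * (1 / 2 ^ L)) := by
    refine h₁ Ω q L (fun ω j => ((y ω j : ℕ) : ℤ)) D e (M + b * S * (1 / 2 ^ L)) Set.univ hq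
      (fun i => (degreeOf_le_totalDegree D i).trans hD) he ?_ ?_ ?_ ?_ ?_ ?_
    · rw [hS]
      have : 0 ≤ b * coefSum D * (1 / 2 ^ L) := by positivity
      linarith
    · intro ω hω j
      have h3 := (hy0 ω hω j).2
      rw [div_le_one hL0] at h3
      have h4 : (0 : ℝ) ≤ y ω j := Nat.cast_nonneg _
      push_cast
      rw [abs_of_nonneg h4]
      linarith
    · refine hH.trans (le_of_eq ?_)
      refine H_congr hq.nonneg ?_ ?_
      · intro ω ω' _ _ h
        funext j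
        have := congrFun h j
        simp only at this
        exact_mod_cast this
      · intro ω ω' _ _ h
        simp only
        rw [h]
    · refine le_trans ?_ hsz
      exact mul_le_mul hC1 hexp (Real.exp_pos _).le (by linarith)
    · have h3 : Pool.KAF.Pr q (Set.univ : Set Ω) = 1 := by
        unfold Pool.KAF.Pr law
        rw [← hq.sum_one]
        refine Finset.sum_congr rfl fun ω _ => ?_
        rw [if_pos]
        exact propext ⟨fun _ => trivial, fun _ => Set.mem_univ ω⟩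
      rw [h3]
      norm_num
    · intro ω _ hω
      have h3 := eval_lip D hD (s := 1 / 2 ^ L) (by positivity)
        (by rw [div_le_one hL0]; exact hL1) (fun j => (y ω j : ℝ) / 2 ^ L) (z ω)
        (fun j => hy0 ω hω j) (fun j => ⟨(hyz ω hω j).1, (hyz ω hω j).2.1⟩)
      have h4 := hsm ω hω
      have h5 : (m : ℝ) * (K * (2 ^ K * coefSum D)) * (1 / 2 ^ L) = b * S * (1 / 2 ^ L) := by
        rw [hb, hS]; ring
      rw [h5] at h3
      have h6 : (fun j => ((((y ω j : ℕ) : ℤ)) : ℝ) / 2 ^ L) = fun j => (y ω j : ℝ) / 2 ^ L := by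
        funext j
        push_cast
        rfl
      rw [h6]
      have h7 := abs_sub_abs_le_abs_sub (eval (fun j => (y ω j : ℝ) / 2 ^ L) D) (eval (z ω) D)
      rw [abs_sub_comm] at h7
      linarith
  have h3 := h₂ D _ hD (fun x hx => key x (fun i => by
    have := hx i
    rw [abs_le]
    constructor <;> linarith [this.1, this.2]))
  rw [← hS, ← hE] at h3
  rw [← hS]
  have hS' : 0 ≤ S := by rw [hS]; exact hS0
  have hE' : 0 < E := by rw [hE]; exact hE0
  -- the error term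
  have h4 : C₂ * (C₁ * E * (b * S * (1 / 2 ^ L))) ≤ S / 2 := by
    have h5 : 2 * (C₂ * C₁) * (b + 1) * E ≤ 2 ^ L := by
      rw [← hC, hE]
      refine le_trans ?_ hsz
      exact mul_le_mul_of_nonneg_left hexp (by linarith)
    have h6 : 2 * (C₂ * (C₁ * E * b)) ≤ 2 ^ L := by
      have : 0 ≤ 2 * (C₂ * C₁) * E := by positivity
      nlinarith
    have h7 : C₂ * (C₁ * E * (b * S * (1 / 2 ^ L))) = 2 * (C₂ * (C₁ * E * b)) / 2 ^ L * (S / 2) := by
      field_simp
    rw [h7]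
    have h8 : 2 * (C₂ * (C₁ * E * b)) / 2 ^ L ≤ 1 := by rw [div_le_one hL0]; exact h6
    calc _ ≤ 1 * (S / 2) := mul_le_mul_of_nonneg_right h8 (by linarith)
      _ = _ := one_mul _
  have h9 : S ≤ 2 * (C₂ * C₁) * E * M := by
    have : C₂ * (C₁ * E * (M + b * S * (1 / 2 ^ L))) =
        C₂ * C₁ * E * M + C₂ * (C₁ * E * (b * S * (1 / 2 ^ L))) := by ring
    rw [this] at h3
    linarith
  refine h9.trans ?_
  refine mul_le_mul_of_nonneg_right ?_ hM
  rw [hE]
  exact mul_le_mul hCb hexp (Real.exp_pos _).le (by linarith)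

end Pool.PB
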