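import Pool.Agent.H29.PB.UnqA
import Pool.Agent.H48.OC.Step

/-!
# Uniqueness of the germs: one family
-/

set_option autoImplicit false

namespace Pool.PB

open Finset Real MvPolynomial
open Pool.Agent.H49.Ent Pool.Agent.H32.Dense Pool.STK Pool.KA Pool.KSAT Pool.K2S Pool.KS3
open Pool.KAL Pool.FLF

variable {m J : ℕ}

/-- The graph in the coordinates of the cell of radius `2 ^ (-a)`, values in units `2 ^ (-P)`. -/
noncomputable def scI (i₁ : Fin m) (a P : ℕ) (c : ℕ × (Fin m → ℤ)) (G : MvPolynomial (Fin m) ℝ) :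
    MvPolynomial (Fin m) ℝ := C (2 ^ P) * shf G (1 / 2 ^ a) (crI i₁ a c)

lemma eval_scI (i₁ : Fin m) (a P : ℕ) (c : ℕ × (Fin m → ℤ)) (G : MvPolynomial (Fin m) ℝ)
    (y : Fin m → ℝ) : eval y (scI i₁ a P c G) =
      2 ^ P * eval (fun j => crI i₁ a c j + 1 / 2 ^ a * y j) G := by
  unfold scI
  rw [map_mul, eval_C, eval_shf]

lemma deg_scI (i₁ : Fin m) (a P : ℕ) (c : ℕ × (Fin m → ℤ)) {G : MvPolynomial (Fin m) ℝ} {K : ℕ}
    (hG : G.totalDegree ≤ K) : (scI i₁ a P c G).totalDegree ≤ K := by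
  unfold scI
  refine (totalDegree_mul _ _).trans ?_
  rw [totalDegree_C, zero_add]
  exact (totalDegree_shf_le _ _ _).trans hG

/-- The position of the base point in the cell. -/
noncomputable def yI (F : Fam m J) (i₁ : Fin m) (a : ℕ) (ω : F.Ω) : Fin m → ℝ := fun j =>
  2 ^ a * (bp F i₁ ω j - crI i₁ a (F.T1 a ω, F.X a ω) j)

lemma yI_mem (F : Fam m J) (i₁ : Fin m) {a : ℕ} (ha : a ≤ J) (ω : F.Ω) (j : Fin m) :
    0 ≤ yI F i₁ a ω j ∧ yI F i₁ a ω j ≤ 1 := by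
  have h1 := bp_cell F i₁ ha ω j
  have ha0 : (0 : ℝ) < 2 ^ a := by positivity
  unfold yI
  constructor
  · exact mul_nonneg ha0.le (by linarith [h1.1])
  · have h2 : bp F i₁ ω j - crI i₁ a (F.T1 a ω, F.X a ω) j ≤ 1 / 2 ^ a := by linarith [h1.2]
    calc (2 : ℝ) ^ a * (bp F i₁ ω j - crI i₁ a (F.T1 a ω, F.X a ω) j) ≤ 2 ^ a * (1 / 2 ^ a) :=
          mul_le_mul_of_nonneg_left h2 ha0.le
      _ = 1 := by field_simp

lemma eval_yI (F : Fam m J) (i₁ : Fin m) (a P : ℕ) (ω : F.Ω) (G : MvPolynomial (Fin m) ℝ) :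
    eval (yI F i₁ a ω) (scI i₁ a P (F.T1 a ω, F.X a ω) G) = 2 ^ P * eval (bp F i₁ ω) G := by
  rw [eval_scI]
  congr 2
  congr 1
  funext j
  unfold yI
  have ha0 : (2 : ℝ) ^ a ≠ 0 := by positivity
  field_simp
  ring

/-- The position in the cell and the digits. -/
lemma yI_bas (F : Fam m J) (i₁ : Fin m) {a L r : ℕ} (h : a + L = r) (hr : r ≤ J) (ω : F.Ω)
    (j : Fin m) :
    ((bas (ppos L (chI i₁)) (trp F r ω) j : ℕ) : ℝ) / 2 ^ L ≤ yI F i₁ a ω j ∧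
      yI F i₁ a ω j ≤ ((bas (ppos L (chI i₁)) (trp F r ω) j : ℕ) : ℝ) / 2 ^ L + 1 / 2 ^ L := by
  have h1 := base_cell F i₁ h hr ω j
  have h2 := bp_cell F i₁ hr ω j
  have ha0 : (0 : ℝ) < 2 ^ a := by positivity
  have hL0 : (0 : ℝ) < 2 ^ L := by positivity
  have hM : ((2 ^ L : ℕ) : ℝ) = 2 ^ L := by push_cast; rfl
  have h3 : rp (2 ^ L) (ppos L (chI i₁)) (trp F r ω) (some j) =
      ((bas (ppos L (chI i₁)) (trp F r ω) j : ℕ) : ℝ) / 2 ^ L := by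
    unfold rp bas
    rw [hM]
  rw [h3] at h1
  obtain ⟨B, hB⟩ : ∃ B, B = ((bas (ppos L (chI i₁)) (trp F r ω) j : ℕ) : ℝ) / 2 ^ L := ⟨_, rfl⟩
  rw [← hB] at h1 ⊢
  have h4 : yI F i₁ a ω j = B + 2 ^ a * (bp F i₁ ω j - crI i₁ r (F.T1 r ω, F.X r ω) j) := by
    unfold yI
    rw [← h1]
    field_simp
    ring
  rw [h4]
  have h5 : 0 ≤ 2 ^ a * (bp F i₁ ω j - crI i₁ r (F.T1 r ω, F.X r ω) j) :=
    mul_nonneg ha0.le (by linarith [h2.1])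
  have h6 : 2 ^ a * (bp F i₁ ω j - crI i₁ r (F.T1 r ω, F.X r ω) j) ≤ 1 / 2 ^ L := by
    have h7 : bp F i₁ ω j - crI i₁ r (F.T1 r ω, F.X r ω) j ≤ 1 / 2 ^ r := by linarith [h2.2]
    calc _ ≤ 2 ^ a * (1 / 2 ^ r) := mul_le_mul_of_nonneg_left h7 ha0.le
      _ = 1 / 2 ^ L := by
        rw [← h, pow_add]
        field_simp
  constructor <;> linarith

/-- A large value. -/
lemma exists_of_le_Ex {Ω : Type} [Fintype Ω] {p : Ω → ℝ} (hp : IsLaw p) {f : Ω → ℝ} {t : ℝ}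
    (h : t ≤ Ex p f) : ∃ ω, 0 < p ω ∧ t ≤ f ω := by
  by_contra hcon
  push Not at hcon
  obtain ⟨ω₀, hω₀⟩ : ∃ ω, 0 < p ω := by
    by_contra hc
    push Not at hc
    have : ∑ ω, p ω ≤ 0 := Finset.sum_nonpos fun ω _ => hc ω
    rw [hp.sum_one] at this
    linarith
  have h1 : Ex p f < ∑ ω, p ω * t := by
    unfold Ex
    refine Finset.sum_lt_sum (fun ω _ => ?_) ⟨ω₀, Finset.mem_univ _, ?_⟩
    · rcases (hp.nonneg ω).eq_or_lt with h2 | h2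
      · rw [← h2, zero_mul, zero_mul]
      · exact mul_le_mul_of_nonneg_left (hcon ω h2).le h2.le
    · exact mul_lt_mul_of_pos_left (hcon ω₀ hω₀) hω₀
  rw [← Finset.sum_mul, hp.sum_one, one_mul] at h1
  linarith

/-- Rounded coefficients determine the values. -/
lemma eval_of_fco {m K s : ℕ} (hs : ((expBox (Fin m) K).card : ℝ) ≤ 2 ^ s) {V : Type}
    (g : V → MvPolynomial (Fin m) ℝ) (hg : ∀ v, (g v).totalDegree ≤ K) {v v' : V}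
    (h : fco s g v = fco s g v') {y : Fin m → ℝ} (hy : ∀ i, |y i| ≤ 1) :
    |eval y (g v) - eval y (g v')| ≤ 1 := by
  have hs0 : (0 : ℝ) < 2 ^ s := by positivity
  rw [← map_sub]
  have h2 := eval_near_unit (K := K) (R := g v - g v')
    ((totalDegree_sub _ _).trans (max_le (hg _) (hg _)))
    (t := 1 / 2 ^ s) (by
      intro α _
      rw [coeff_sub]
      have h3 : ⌊(2 : ℝ) ^ s * coeff α (g v)⌋ = ⌊(2 : ℝ) ^ s * coeff α (g v')⌋ := congrFun h α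
      have h4 := Int.abs_sub_lt_one_of_floor_eq_floor h3
      rw [← mul_sub, abs_mul, abs_of_pos hs0] at h4
      rw [le_div_iff₀ hs0]
      linarith) (y := y) hy
  refine h2.trans ?_
  rw [mul_one_div, div_le_one hs0]
  exact hs

/-- **Two labels on one family.** -/
theorem uniq_core (m K s : ℕ) (hs : ((expBox (Fin m) K).card : ℝ) ≤ 2 ^ s) : ∃ C : ℝ, 1 ≤ C ∧
    ∀ (J : ℕ) (F : Fam m J) (i₁ : Fin m) (a L r P κ γ : ℕ) (δ ε e₁ : ℝ)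
    (G G' : (Fin m → ℤ) × (ℕ × F.ζ) → MvPolynomial (Fin m) ℝ)
    (cl : ((Fin m → ℝ) × (Fin m → ℝ)) × F.ζ × ℕ → Fin m → ℤ),
    a + L = r → r ≤ J → (∀ ω, F.X a ω = cl (slam F a ω)) →
    (∀ y, (G y).totalDegree ≤ K) → (∀ y, (G' y).totalDegree ≤ K) →
    (∀ ω, |F.x ω i₁ - eval (bp F i₁ ω) (G (Fam.pt F ω))| ≤ 1 / 2 ^ P) →
    (∀ ω, |F.x ω i₁ - eval (bp F i₁ ω) (G' (Fam.pt F ω))| ≤ 1 / 2 ^ P) →
    Det F.p (slam F a) (fun ω => fco s (fun ξ => scI i₁ a P (celx J a J ξ) (G ξ)) (Fam.pt F ω)) →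
    Det F.p (slam F a) (fun ω => fco s (fun ξ => scI i₁ a P (celx J a J ξ) (G' ξ)) (Fam.pt F ω)) →
    0 ≤ e₁ → F.Tm e₁ → 0 < δ → 0 ≤ ε →
    NCF F.p (slam F a) (Fam.pt F) (lB (chI i₁)) δ (fun _ => ε) →
    m.factorial * (2 : ℝ) ^ m ≤ δ ^ m * 2 ^ γ → 1 ≤ κ →
    ∀ Δ : ℝ, Δ = C * (e₁ + L / κ + γ + κ + 1 + ε * L) → C * Real.exp (C * Δ) ≤ 2 ^ L →
    ∃ ω, 0 < F.p ω ∧ coefSum (scI i₁ a P (F.T1 a ω, F.X a ω) (G (Fam.pt F ω)) -
      scI i₁ a P (F.T1 a ω, F.X a ω) (G' (Fam.pt F ω))) ≤ C * Real.exp (C * Δ) := by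
  classical
  obtain ⟨C₀, hC₀, hfull⟩ := Pool.STPA.full_c m
  obtain ⟨C₁, hC₁, hrem⟩ := rem_cells m K
  obtain ⟨C, hC⟩ : ∃ C : ℝ, C = 4 * C₁ + C₀ + m := ⟨_, rfl⟩
  have hm0 : (0 : ℝ) ≤ m := Nat.cast_nonneg m
  have hC1 : C₁ ≤ C := by linarith
  have hC4 : 4 * C₁ ≤ C := by linarith
  refine ⟨C, by linarith, ?_⟩
  intro J F i₁ a L r P κ γ δ ε e₁ G G' cl hL hr hcl hG hG' hx hx' hD hD' he₁ hTm hδ hε hn hγ hκ Δ
    hΔ hsz
  have hp := F.isLaw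
  have hp0 := hp.nonneg
  have ha : a ≤ J := by omega
  obtain ⟨gx, hgx⟩ : ∃ gx : (Fin m → ℤ) × (ℕ × F.ζ) → MvPolynomial (Fin m) ℝ,
    gx = fun ξ => scI i₁ a P (celx J a J ξ) (G ξ) := ⟨_, rfl⟩
  obtain ⟨gx', hgx'⟩ : ∃ gx' : (Fin m → ℤ) × (ℕ × F.ζ) → MvPolynomial (Fin m) ℝ,
    gx' = fun ξ => scI i₁ a P (celx J a J ξ) (G' ξ) := ⟨_, rfl⟩
  rw [← hgx] at hD
  rw [← hgx'] at hD'
  have hdg : ∀ ξ, (gx ξ).totalDegree ≤ K := fun ξ => by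
    rw [hgx]
    exact deg_scI i₁ a P _ (hG ξ)
  have hdg' : ∀ ξ, (gx' ξ).totalDegree ≤ K := fun ξ => by
    rw [hgx']
    exact deg_scI i₁ a P _ (hG' ξ)
  have hcell : ∀ ω, celx J a J (Fam.pt F ω) = (F.T1 a ω, F.X a ω) := fun ω => celx_ptr F ha ω
  have hgxe : ∀ ω, gx (Fam.pt F ω) = scI i₁ a P (F.T1 a ω, F.X a ω) (G (Fam.pt F ω)) := by
    intro ω
    rw [hgx]
    simp only
    rw [hcell]
  have hgxe' : ∀ ω, gx' (Fam.pt F ω) = scI i₁ a P (F.T1 a ω, F.X a ω) (G' (Fam.pt F ω)) := by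
    intro ω
    rw [hgx']
    simp only
    rw [hcell]
  -- the join of the labels
  obtain ⟨g, hg⟩ : ∃ g : (Fin m → ℤ) × (ℕ × F.ζ) → (ℕ × (Fin m → ℤ)) ×
      (((Fin m →₀ ℕ) → ℤ) × ((Fin m →₀ ℕ) → ℤ)),
    g = fun ξ => (celx J a J ξ, (fco s gx ξ, fco s gx' ξ)) := ⟨_, rfl⟩
  obtain ⟨c, hc⟩ : ∃ c : F.Ω → (ℕ × (Fin m → ℤ)) × (((Fin m →₀ ℕ) → ℤ) × ((Fin m →₀ ℕ) → ℤ)),
    c = fun ω => g (Fam.pt F ω) := ⟨_, rfl⟩
  have hdet : Det F.p (slam F a) c := by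
    intro ω ω' h1 h2 h
    rw [hc, hg]
    simp only
    have k1 : fco s gx (Fam.pt F ω) = fco s gx (Fam.pt F ω') := hD ω ω' h1 h2 h
    have k2 : fco s gx' (Fam.pt F ω) = fco s gx' (Fam.pt F ω') := hD' ω ω' h1 h2 h
    have k3 : F.T1 a ω = F.T1 a ω' := congrArg (fun s => s.2.2) h
    have k4 : F.X a ω = F.X a ω' := by rw [hcl ω, hcl ω', h]
    rw [hcell, hcell, k1, k2, k3, k4]
  have h1 := hfull J F i₁ a L r κ γ δ ε e₁ _ c g cl hL hr hcl (fun ω => by rw [hc]) hdet hTm hδ hε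
    hn hγ hκ
  rw [Pool.OCG.CH_eq_Ex hp0] at h1
  obtain ⟨e, he⟩ : ∃ e : ℝ, e = m * e₁ + C₀ * (L / κ + γ + κ + 1 + ε * L) := ⟨_, rfl⟩
  have hsum0 : (0 : ℝ) ≤ L / κ + γ + κ + 1 + ε * L := by positivity
  have he0 : 0 ≤ e := by rw [he]; positivity
  have heΔ : e ≤ Δ := by
    rw [he, hΔ]
    have k1 : (m : ℝ) * e₁ ≤ C * e₁ := mul_le_mul_of_nonneg_right (by linarith) he₁
    have k2 : C₀ * (L / κ + γ + κ + 1 + ε * L) ≤ C * (L / κ + γ + κ + 1 + ε * L) :=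
      mul_le_mul_of_nonneg_right (by linarith) hsum0
    calc _ ≤ C * e₁ + C * (L / κ + γ + κ + 1 + ε * L) := add_le_add k1 k2
      _ = _ := by ring
  obtain ⟨ω₁, hω₁, h2⟩ := exists_of_le_Ex hp (t := m * (L * Real.log 2) - e)
    (f := fun ω => H (Pool.Agent.H49.Ent.cond F.p c (c ω))
      (fun ω => bas (ppos L (chI i₁)) (trp F r ω))) (by
      rw [he]
      linarith)
  refine ⟨ω₁, hω₁, ?_⟩
  have hq : IsLaw (Pool.Agent.H49.Ent.cond F.p c (c ω₁)) :=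
    isLaw_fib hp c (law_pos hp0 c hω₁).ne'
  have hfib : ∀ ω, 0 < Pool.Agent.H49.Ent.cond F.p c (c ω₁) ω → c ω = c ω₁ := fun ω hω =>
    ((cond_pos_iff hp0 c (c ω₁) ω).mp hω).2
  have hexp : Real.exp (C₁ * e) ≤ Real.exp (C * Δ) := by
    refine Real.exp_le_exp.mpr ?_
    exact mul_le_mul hC1 heΔ he0 (by linarith)
  have h3 := hrem F.Ω (Pool.Agent.H49.Ent.cond F.p c (c ω₁)) L
    (fun ω => bas (ppos L (chI i₁)) (trp F r ω)) (yI F i₁ a)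
    (gx (Fam.pt F ω₁) - gx' (Fam.pt F ω₁)) e 4 hq
    ((totalDegree_sub _ _).trans (max_le (hdg _) (hdg' _))) he0 (by norm_num)
    (fun ω _ j => ⟨(yI_bas F i₁ hL hr ω j).1, (yI_bas F i₁ hL hr ω j).2, (yI_mem F i₁ ha ω j).2⟩)
    h2 (le_trans (mul_le_mul hC1 hexp (Real.exp_pos _).le (by linarith)) hsz) (by
      intro ω hω
      have h4 := hfib ω hω
      rw [hc, hg] at h4
      have h5 : fco s gx (Fam.pt F ω) = fco s gx (Fam.pt F ω₁) := congrArg (fun z => z.2.1) h4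
      have h6 : fco s gx' (Fam.pt F ω) = fco s gx' (Fam.pt F ω₁) := congrArg (fun z => z.2.2) h4
      have hy : ∀ j, |yI F i₁ a ω j| ≤ 1 := fun j => by
        have := yI_mem F i₁ ha ω j
        rw [abs_of_nonneg this.1]
        exact this.2
      have h7 := eval_of_fco hs gx hdg h5 hy
      have h8 := eval_of_fco hs gx' hdg' h6 hy
      rw [hgxe ω, eval_yI] at h7
      rw [hgxe' ω, eval_yI] at h8
      have hP0 : (0 : ℝ) < 2 ^ P := by positivity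
      have sc : ∀ t : ℝ, |F.x ω i₁ - t| ≤ 1 / 2 ^ P → |2 ^ P * F.x ω i₁ - 2 ^ P * t| ≤ 1 := by
        intro t ht
        rw [← mul_sub, abs_mul, abs_of_pos hP0]
        calc (2 : ℝ) ^ P * |F.x ω i₁ - t| ≤ 2 ^ P * (1 / 2 ^ P) :=
              mul_le_mul_of_nonneg_left ht hP0.le
          _ = 1 := by field_simp
      have h9 := sc _ (hx ω)
      have h10 := sc _ (hx' ω)
      rw [map_sub]
      rw [abs_le] at h7 h8 h9 h10 ⊢
      constructor <;> linarith [h7.1, h7.2, h8.1, h8.2, h9.1, h9.2, h10.1, h10.2])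
  rw [hgxe ω₁, hgxe' ω₁] at h3
  refine h3.trans ?_
  calc C₁ * Real.exp (C₁ * e) * 4 = 4 * C₁ * Real.exp (C₁ * e) := by ring
    _ ≤ C * Real.exp (C * Δ) := mul_le_mul hC4 hexp (Real.exp_pos _).le (by linarith)

end Pool.PB
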