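import Pool.Agent.H29.PB.UnqB

/-!
# Uniqueness of the germs: labels on an event of a family
-/

set_option autoImplicit false

namespace Pool.PB

open Finset Real MvPolynomial
open Pool.Agent.H49.Ent Pool.Agent.H32.Dense Pool.STK Pool.KA Pool.KSAT Pool.K2S Pool.KS3
open Pool.KAL Pool.FLF Pool.STPA

variable {m J : ℕ}

/-- The data of a label, without the bound of the slopes: `G` are functions of the point of
resolution `r`, `H` of the line and of the window of length `2 ^ (-w)`. -/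
def LabD (F : Fam m J) (i₁ : Fin m) (r K a w P : ℕ)
    (G : (Fin m → ℤ) × (ℕ × F.ζ) → MvPolynomial (Fin m) ℝ)
    (H : ((Fin m → ℝ) × (Fin m → ℝ)) × F.ζ × ℕ → MvPolynomial (Fin m) ℝ) (A : F.Ω → Prop) :
    Prop :=
  (∀ y, (G y).totalDegree ≤ K) ∧ (∀ s, (H s).totalDegree ≤ K) ∧ ∀ ω, A ω →
      |F.x ω i₁ - eval (bp F i₁ ω) (G (ptr F r ω))| ≤ 1 / 2 ^ P ∧
      ∀ b : Fin m → ℝ, (∀ j, |b j - bp F i₁ ω j| ≤ 1 / 2 ^ a) →
        |eval b (G (ptr F r ω)) - eval b (H (slam F w ω))| ≤ 1 / 2 ^ P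

theorem LabD.hered {F : Fam m J} {i₁ : Fin m} {r K a w P : ℕ}
    {G : (Fin m → ℤ) × (ℕ × F.ζ) → MvPolynomial (Fin m) ℝ}
    {H : ((Fin m → ℝ) × (Fin m → ℝ)) × F.ζ × ℕ → MvPolynomial (Fin m) ℝ} {A B : F.Ω → Prop}
    (hB : Sub B A) (h : LabD F i₁ r K a w P G H A) : LabD F i₁ r K a w P G H B :=
  ⟨h.1, h.2.1, fun ω hω => h.2.2 ω (hB ω hω)⟩

/-- The data of a label `Tb`. -/
theorem Tb.labD {F : Fam m J} {i₁ : Fin m} {r K a w P : ℕ} {A : F.Ω → Prop}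
    (h : Tb F i₁ r K a w P A) : ∃ G H, LabD F i₁ r K a w P G H A ∧
      ∀ ω, A ω → ∀ j, |eval (bp F i₁ ω) (pderiv j (G (ptr F r ω)))| ≤ 2 * m := by
  obtain ⟨G, H, h1, h2, h3⟩ := h
  exact ⟨G, H, ⟨h1, h2, fun ω hω => ⟨(h3 ω hω).1, (h3 ω hω).2.2⟩⟩, fun ω hω => (h3 ω hω).2.1⟩

theorem LabD.tb {F : Fam m J} {i₁ : Fin m} {r K a w P : ℕ} {A : F.Ω → Prop}
    {G : (Fin m → ℤ) × (ℕ × F.ζ) → MvPolynomial (Fin m) ℝ}
    {H : ((Fin m → ℝ) × (Fin m → ℝ)) × F.ζ × ℕ → MvPolynomial (Fin m) ℝ}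
    (h : LabD F i₁ r K a w P G H A)
    (h' : ∀ ω, A ω → ∀ j, |eval (bp F i₁ ω) (pderiv j (G (ptr F r ω)))| ≤ 2 * m) :
    Tb F i₁ r K a w P A :=
  ⟨G, H, h.1, h.2.1, fun ω hω => ⟨(h.2.2 ω hω).1, h' ω hω, (h.2.2 ω hω).2⟩⟩

/-- The data in terms of the exact point and of the window of the radius. -/
theorem LabD.norm {F : Fam m J} {i₁ : Fin m} {r K K' a w P P' : ℕ}
    {G : (Fin m → ℤ) × (ℕ × F.ζ) → MvPolynomial (Fin m) ℝ}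
    {H : ((Fin m → ℝ) × (Fin m → ℝ)) × F.ζ × ℕ → MvPolynomial (Fin m) ℝ} {A : F.Ω → Prop}
    (hr : r ≤ J) (hw : w ≤ a) (ha : a ≤ J) (hK : K ≤ K') (hP : P' ≤ P)
    (h : LabD F i₁ r K a w P G H A) :
    ∃ G' H', LabD F i₁ J K' a a P' G' H' A ∧ ∀ ω, G' (Fam.pt F ω) = G (ptr F r ω) := by
  obtain ⟨φ, hφ⟩ := ptr_coarse F hr
  have hφ' : ∀ ω, φ (Fam.pt F ω) = ptr F r ω := fun ω => (hφ ω).symm
  refine ⟨fun y => G (φ y), fun s => H (s.1, s.2.1, s.2.2 / 2 ^ (a - w)),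
    ⟨fun y => (h.1 _).trans hK, fun s => (h.2.1 _).trans hK, fun ω hω => ?_⟩,
    fun ω => congrArg G (hφ' ω)⟩
  obtain ⟨h4, h5⟩ := h.2.2 ω hω
  rw [hφ ω] at h4 h5
  rw [slam_coarse F hw ha ω] at h5
  exact ⟨h4.trans (inv_mono hP), fun b hb => (h5 b hb).trans (inv_mono hP)⟩

/-- The label in the coordinates of the cell. -/
lemma scI_near (F : Fam m J) (i₁ : Fin m) {a P : ℕ} (ha : a ≤ J) {G H : MvPolynomial (Fin m) ℝ}
    (ω : F.Ω) (h : ∀ b : Fin m → ℝ, (∀ j, |b j - bp F i₁ ω j| ≤ 1 / 2 ^ a) →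
      |eval b G - eval b H| ≤ 1 / 2 ^ P)
    {y : Fin m → ℝ} (hy : y ∈ cube (fun _ : Fin m => (0 : ℝ)) 1) :
    |eval y (scI i₁ a P (F.T1 a ω, F.X a ω) G - scI i₁ a P (F.T1 a ω, F.X a ω) H)| ≤
      1 / 2 ^ 0 := by
  have hs0 : (0 : ℝ) < 1 / 2 ^ a := by positivity
  have hP0 : (0 : ℝ) < 2 ^ P := by positivity
  have h1 := h (fun j => crI i₁ a (F.T1 a ω, F.X a ω) j + 1 / 2 ^ a * y j) (by
    intro j
    have h1 := bp_cell F i₁ ha ω j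
    have h2 := hy j
    have h3 : 0 ≤ 1 / 2 ^ a * y j := mul_nonneg hs0.le h2.1
    have h4 : 1 / 2 ^ a * y j ≤ 1 / 2 ^ a := by
      have : y j ≤ 1 := by linarith [h2.2]
      exact mul_le_of_le_one_right hs0.le this
    rw [abs_le]
    constructor <;> linarith [h1.1, h1.2])
  rw [map_sub, eval_scI, eval_scI, ← mul_sub, abs_mul, abs_of_pos hP0]
  calc (2 : ℝ) ^ P * _ ≤ 2 ^ P * (1 / 2 ^ P) := mul_le_mul_of_nonneg_left h1 hP0.le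
    _ = 1 / 2 ^ 0 := by field_simp

/-- **Two labels on an event of a regular family.** -/
theorem uniq_fam (m K : ℕ) : ∃ C c₀ : ℝ, 1 ≤ C ∧ 0 < c₀ ∧
    ∀ (J : ℕ) (F : Fam m J) (i₁ : Fin m) (a L P κ γ : ℕ) (δ ψ e e' s : ℝ) (E : F.Ω → Prop)
    (G G' : (Fin m → ℤ) × (ℕ × F.ζ) → MvPolynomial (Fin m) ℝ)
    (H H' : ((Fin m → ℝ) × (Fin m → ℝ)) × F.ζ × ℕ → MvPolynomial (Fin m) ℝ),
    a + L ≤ J → F.Tr → F.Tm e' → F.Rb e → 0 ≤ 4 * e + e' + s →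
    (∀ B : F.Ω → Prop, Sub B E → c₀ * Pe F.p E ≤ Pe F.p B →
      Stb F.p ψ B (Fn (fun ω i => lB (chI i₁) (slam F a ω) (some i)) (Fam.pt F) (Slb m δ)) ∧
      ¬ Fn (fun ω i => lB (chI i₁) (slam F a ω) (some i)) (Fam.pt F) (Slb m δ) B) →
    2 * Real.log 2 ≤ ψ → Real.exp (-s) ≤ c₀ / 2 * Pe F.p E → 0 < δ →
    m.factorial * (2 : ℝ) ^ m ≤ δ ^ m * 2 ^ γ → 1 ≤ κ →
    LabD F i₁ J K a a P G H E → LabD F i₁ J K a a P G' H' E →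
    ∀ Δ : ℝ, Δ = C * (4 * e + e' + s + L / κ + γ + κ + 1 + Real.exp (-(ψ / 2)) * L) →
    C * Real.exp (C * Δ) ≤ 2 ^ L →
    ∃ ω, E ω ∧ ∀ R : ℝ, 1 ≤ R → ∀ b : Fin m → ℝ, (∀ j, |b j - bp F i₁ ω j| ≤ R / 2 ^ a) →
      |eval b (G (Fam.pt F ω)) - eval b (G' (Fam.pt F ω))| ≤
        R ^ K * (2 ^ K * (C * Real.exp (C * Δ))) / 2 ^ P := by
  classical
  obtain ⟨s₀, hs₀⟩ : ∃ s : ℕ, ((expBox (Fin m) K).card : ℝ) ≤ 2 ^ s :=
    ⟨(expBox (Fin m) K).card, by exact_mod_cast Nat.lt_two_pow_self.le⟩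
  obtain ⟨c, hc, hround⟩ := round_lab m K s₀
  obtain ⟨C, hC, hcore⟩ := uniq_core m K s₀ hs₀
  refine ⟨C, c * (c * (1 / 3 ^ m)), hC, by positivity, ?_⟩
  intro J F i₁ a L P κ γ δ ψ e e' s E G G' H H' haL hTr hTm hRb hes hfan hψ hs hδ hγ hκ hlab hlab'
    Δ hΔ hsz
  have hp := F.isLaw
  have ha : a ≤ J := by omega
  have hEpos : 0 < Pe F.p E := by
    have h1 := (Real.exp_pos (-s)).trans_le hs
    by_contra hcon
    have h2 : Pe F.p E = 0 := le_antisymm (not_lt.1 hcon) (Pe_nonneg hp E)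
    rw [h2, mul_zero] at h1
    exact lt_irrefl _ h1
  obtain ⟨B₁, hB1, hP1, cl, hcl⟩ := cell_event F ha E
  have hcelx : ∀ ω, celx J a J (Fam.pt F ω) = (F.T1 a ω, F.X a ω) := fun ω => celx_ptr F ha ω
  have hT : ∀ ω, (slam F a ω).2.2 = F.T1 a ω := fun _ => rfl
  -- rounding of one label
  have rnd : ∀ (G : (Fin m → ℤ) × (ℕ × F.ζ) → MvPolynomial (Fin m) ℝ)
      (H : ((Fin m → ℝ) × (Fin m → ℝ)) × F.ζ × ℕ → MvPolynomial (Fin m) ℝ),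
      LabD F i₁ J K a a P G H E → ∀ B : F.Ω → Prop, Sub B B₁ → ∃ B' : F.Ω → Prop, Sub B' B ∧
        c * Pe F.p B ≤ Pe F.p B' ∧ ∀ ω ω', B' ω → B' ω' → slam F a ω = slam F a ω' →
          fco s₀ (fun ξ => scI i₁ a P (celx J a J ξ) (G ξ)) (Fam.pt F ω) =
          fco s₀ (fun ξ => scI i₁ a P (celx J a J ξ) (G ξ)) (Fam.pt F ω') := by
    intro G H hl B hB
    obtain ⟨v, B', hB', hPB', hv⟩ := hround F.Ω ((Fin m → ℤ) × (ℕ × F.ζ))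
      (((Fin m → ℝ) × (Fin m → ℝ)) × F.ζ × ℕ) F.p (Fam.pt F) (slam F a)
      (fun ξ => scI i₁ a P (celx J a J ξ) (G ξ)) (fun l => scI i₁ a P (l.2.2, cl l) (H l)) 0 B hp
      (fun ξ => deg_scI i₁ a P _ (hl.1 ξ)) (fun l => deg_scI i₁ a P _ (hl.2.1 l)) (by
        intro ω hω y hy
        rw [hcelx ω, hT ω, ← hcl ω (hB ω hω)]
        exact scI_near F i₁ ha ω (hl.2.2 ω (hB1 ω (hB ω hω))).2 hy)
    refine ⟨B', hB', hPB', fun ω ω' hω hω' h => ?_⟩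
    have h1 := hv ω hω
    have h2 := hv ω' hω'
    rw [Nat.zero_add] at h1 h2
    rw [h1, h2, h]
  obtain ⟨B₂, hB2, hP2, hd⟩ := rnd G H hlab B₁ (fun _ h => h)
  obtain ⟨B₃, hB3, hP3, hd'⟩ := rnd G' H' hlab' B₂ hB2
  have hB3E : Sub B₃ E := (hB3.trans hB2).trans hB1
  have hPB3 : c * (c * (1 / 3 ^ m)) * Pe F.p E ≤ Pe F.p B₃ := by
    refine le_trans ?_ hP3
    refine le_trans ?_ (mul_le_mul_of_nonneg_left hP2 hc.le)
    refine le_trans (le_of_eq ?_) (mul_le_mul_of_nonneg_left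
      (mul_le_mul_of_nonneg_left hP1 hc.le) hc.le)
    ring
  have hB3pos : 0 < Pe F.p B₃ := lt_of_lt_of_le (by positivity) hPB3
  obtain ⟨hst, hnf⟩ := hfan B₃ hB3E hPB3
  obtain ⟨ev, hev0, -, hev, hncf⟩ := ncf_of_stb hp hB3pos (slam F a) (Fam.pt F) (lB (chI i₁)) hst hnf
  -- the good points
  obtain ⟨N, hN⟩ : ∃ N : F.Ω → Prop, N = fun ω => Real.exp (-(ψ / 2)) < ev (Fam.pt F ω) := ⟨_, rfl⟩
  have hε2 : Real.exp (-(ψ / 2)) ≤ 1 / 2 := by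
    have h1 : Real.exp (-(ψ / 2)) ≤ Real.exp (-Real.log 2) := Real.exp_le_exp.2 (by linarith)
    rw [Real.exp_neg (Real.log 2), Real.exp_log (by norm_num)] at h1
    linarith
  have hNP : Pe F.p (fun ω => B₃ ω ∧ N ω) ≤ Pe F.p B₃ / 2 := by
    have h1 : (∑ ω : {ω // B₃ ω}, if Real.exp (-(ψ / 2)) < ev (Fam.pt F ω.1) then sp F.p B₃ ω
        else 0) = Pe F.p (fun ω => B₃ ω ∧ Real.exp (-(ψ / 2)) < ev (Fam.pt F ω)) / Pe F.p B₃ :=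
      sum_sp (fun ω => Real.exp (-(ψ / 2)) < ev (Fam.pt F ω)) _ (fun ω h => if_pos h)
        (fun ω h => if_neg h)
    rw [h1, div_le_iff₀ hB3pos] at hev
    rw [hN]
    refine hev.trans ?_
    have := mul_le_mul_of_nonneg_right hε2 hB3pos.le
    linarith
  have hP4 := Pe_diff hNP
  rw [Real.exp_neg, Real.exp_log (by norm_num)] at hP4
  obtain ⟨B₄, hB₄⟩ : ∃ B₄ : F.Ω → Prop, B₄ = fun ω => B₃ ω ∧ ¬ N ω := ⟨_, rfl⟩
  rw [← hB₄] at hP4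
  have hB43 : ∀ ω, B₄ ω → B₃ ω := fun ω h => by rw [hB₄] at h; exact h.1
  have hB4P : c * (c * (1 / 3 ^ m)) / 2 * Pe F.p E ≤ Pe F.p B₄ := by
    refine le_trans ?_ hP4
    linarith
  have hB4pos : 0 < Pe F.p B₄ := lt_of_lt_of_le (by positivity) hB4P
  have hn4 := ncf_sp (n := m) (B := lB (chI i₁)) (δ := δ) (ε := Real.exp (-(ψ / 2)))
    (S := fun ξ => ev ξ ≤ Real.exp (-(ψ / 2))) hp hB3pos hB4pos (lam := slam F a) (x := Fam.pt F)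
    (A' := B₄) (by
      intro ω
      rw [hB₄, hN]
      simp only [not_lt]) (e := ev) (fun ξ h => h) hncf
  have hTm4 := sub_Tm_of_reg hTr hTm hRb hB4pos (hs.trans hB4P)
  -- the core
  obtain ⟨ω, -, hω⟩ := hcore J (Fam.sub F B₄ hB4pos) i₁ a L (a + L) P κ γ δ
    (Real.exp (-(ψ / 2))) (4 * e + e' + s) G G' cl rfl haL
    (fun ω => hcl ω.1 (hB2 _ (hB3 _ (hB43 _ ω.2)))) hlab.1 hlab'.1
    (fun ω => (hlab.2.2 ω.1 (hB3E _ (hB43 _ ω.2))).1)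
    (fun ω => (hlab'.2.2 ω.1 (hB3E _ (hB43 _ ω.2))).1)
    (fun ω ω' _ _ h => hd ω.1 ω'.1 (hB3 _ (hB43 _ ω.2)) (hB3 _ (hB43 _ ω'.2)) h)
    (fun ω ω' _ _ h => hd' ω.1 ω'.1 (hB43 _ ω.2) (hB43 _ ω'.2) h) hes hTm4 hδ
    (Real.exp_pos _).le hn4 hγ hκ Δ hΔ hsz
  refine ⟨ω.1, hB3E _ (hB43 _ ω.2), ?_⟩
  intro R hR b hb
  have hω' : coefSum (scI i₁ a P (F.T1 a ω.1, F.X a ω.1) (G (Fam.pt F ω.1)) -
      scI i₁ a P (F.T1 a ω.1, F.X a ω.1) (G' (Fam.pt F ω.1))) ≤ C * Real.exp (C * Δ) := hω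
  obtain ⟨D, hD⟩ : ∃ D, D = scI i₁ a P (F.T1 a ω.1, F.X a ω.1) (G (Fam.pt F ω.1)) -
      scI i₁ a P (F.T1 a ω.1, F.X a ω.1) (G' (Fam.pt F ω.1)) := ⟨_, rfl⟩
  have hdD : D.totalDegree ≤ K := by
    rw [hD]
    exact (totalDegree_sub _ _).trans (max_le (deg_scI i₁ a P _ (hlab.1 _))
      (deg_scI i₁ a P _ (hlab'.1 _)))
  have ha0 : (0 : ℝ) < 2 ^ a := by positivity
  have hP0 : (0 : ℝ) < 2 ^ P := by positivity
  have h1 := eval_le_pow D hdD (R := 2 * R) (by linarith)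
    (fun j => 2 ^ a * (b j - crI i₁ a (F.T1 a ω.1, F.X a ω.1) j)) (by
      intro j
      have h2 := bp_cell F i₁ ha ω.1 j
      have h3 := abs_le.1 (hb j)
      have h5 : (1 : ℝ) / 2 ^ a ≤ R / 2 ^ a := div_le_div_of_nonneg_right hR ha0.le
      have h4 : |b j - crI i₁ a (F.T1 a ω.1, F.X a ω.1) j| ≤ 2 * R / 2 ^ a := by
        have h6 : 2 * R / 2 ^ a = R / 2 ^ a + R / 2 ^ a := by ring
        rw [h6, abs_le]
        have h7 : (0 : ℝ) ≤ R / 2 ^ a := by positivity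
        constructor <;> linarith [h2.1, h2.2, h3.1, h3.2]
      rw [abs_mul, abs_of_pos ha0]
      calc (2 : ℝ) ^ a * _ ≤ 2 ^ a * (2 * R / 2 ^ a) := mul_le_mul_of_nonneg_left h4 ha0.le
        _ = 2 * R := by field_simp)
  have h8 : eval (fun j => 2 ^ a * (b j - crI i₁ a (F.T1 a ω.1, F.X a ω.1) j)) D =
      2 ^ P * (eval b (G (Fam.pt F ω.1)) - eval b (G' (Fam.pt F ω.1))) := by
    rw [hD, map_sub, eval_scI, eval_scI, ← mul_sub]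
    have h9 : (fun j => crI i₁ a (F.T1 a ω.1, F.X a ω.1) j + 1 / 2 ^ a *
        (2 ^ a * (b j - crI i₁ a (F.T1 a ω.1, F.X a ω.1) j))) = b := by
      funext j
      field_simp
      ring
    rw [h9]
  rw [h8, abs_mul, abs_of_pos hP0] at h1
  rw [le_div_iff₀ hP0, mul_comm]
  refine h1.trans ?_
  rw [mul_pow]
  rw [← hD] at hω'
  have h10 : (0 : ℝ) ≤ 2 ^ K * R ^ K := by positivity
  calc (2 : ℝ) ^ K * R ^ K * coefSum D ≤ 2 ^ K * R ^ K * (C * Real.exp (C * Δ)) :=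
        mul_le_mul_of_nonneg_left hω' h10
    _ = _ := by ring

end Pool.PB
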